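import Mathlib

/-!
# A covering lemma, and binomial coefficient estimates
-/

set_option autoImplicit false

namespace Pool.Agent.Y78.PB

open Finset

theorem cover {ι κ : Type*} [DecidableEq κ] (A : Finset ι) (X : Finset κ) (hX : X.Nonempty)
    (R : ι → κ → Prop) [∀ a x, Decidable (R a x)] (β : ℝ) (hβ : β ≤ 1)
    (h : ∀ a ∈ A, β * X.card ≤ ((X.filter fun x => R a x).card : ℝ)) (M : ℕ) :
    ∃ T ⊆ X, T.card ≤ M ∧
      ((A.filter fun a => ∀ x ∈ T, ¬ R a x).card : ℝ) ≤ (1 - β) ^ M * A.card := by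
  induction M with
  | zero => exact ⟨∅, Finset.empty_subset _, by simp, by simp⟩
  | succ M ih =>
    obtain ⟨T, hT, hc, hb⟩ := ih
    set A' := A.filter fun a => ∀ x ∈ T, ¬ R a x with hA'
    have hX0 : (0 : ℝ) < X.card := by exact_mod_cast hX.card_pos
    have h1 : ∑ x ∈ X, ((A'.filter fun a => R a x).card : ℝ) =
        ∑ a ∈ A', ((X.filter fun x => R a x).card : ℝ) := by
      have := Finset.sum_card_bipartiteAbove_eq_sum_card_bipartiteBelow (s := A') (t := X) R
      simp only [Finset.bipartiteAbove, Finset.bipartiteBelow] at this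
      exact_mod_cast this.symm
    have h2 : ∑ a ∈ A', (β * X.card) ≤ ∑ a ∈ A', ((X.filter fun x => R a x).card : ℝ) :=
      Finset.sum_le_sum fun a ha => h a (Finset.mem_filter.1 ha).1
    obtain ⟨x, hx, hx1⟩ : ∃ x ∈ X, β * A'.card ≤ ((A'.filter fun a => R a x).card : ℝ) := by
      by_contra hcon
      push Not at hcon
      have h3 := Finset.sum_lt_sum_of_nonempty hX hcon
      rw [h1] at h3
      rw [Finset.sum_const, nsmul_eq_mul] at h2 h3
      linarith [mul_comm ((A'.card : ℝ)) (β * X.card), mul_comm ((X.card : ℝ)) (β * A'.card),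
        mul_comm (X.card : ℝ) (A'.card : ℝ), mul_assoc β (X.card : ℝ) (A'.card : ℝ),
        mul_assoc β (A'.card : ℝ) (X.card : ℝ)]
    refine ⟨insert x T, ?_, ?_, ?_⟩
    · exact Finset.insert_subset hx hT
    · exact (Finset.card_insert_le _ _).trans (by omega)
    · have h3 : (A.filter fun a => ∀ z ∈ insert x T, ¬ R a z) = A'.filter fun a => ¬ R a x := by
        ext a
        simp only [Finset.mem_filter, Finset.mem_insert, forall_eq_or_imp, hA']
        tauto
      have h4 : (A'.filter fun a => R a x).card + (A'.filter fun a => ¬ R a x).card = A'.card :=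
        Finset.card_filter_add_card_filter_not _
      have h5 : ((A'.filter fun a => R a x).card : ℝ) + (A'.filter fun a => ¬ R a x).card =
        A'.card := by exact_mod_cast h4
      rw [h3]
      have h6 : 0 ≤ 1 - β := by linarith
      calc ((A'.filter fun a => ¬ R a x).card : ℝ) ≤ (1 - β) * A'.card := by linarith
        _ ≤ (1 - β) * ((1 - β) ^ M * A.card) := mul_le_mul_of_nonneg_left hb h6
        _ = (1 - β) ^ (M + 1) * A.card := by ring

/-- If every `a ∈ A` is covered by a proportion `β` of `X`, then `2 L / β` elements of `X` cover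
`A`, `|A| ≤ 2 ^ L`. -/
theorem cover' {ι κ : Type*} [DecidableEq κ] (A : Finset ι) (X : Finset κ) (hX : X.Nonempty)
    (R : ι → κ → Prop) [∀ a x, Decidable (R a x)] (β : ℝ) (hβ0 : 0 < β) (hβ : β ≤ 1)
    (h : ∀ a ∈ A, β * X.card ≤ ((X.filter fun x => R a x).card : ℝ)) (L : ℕ) (hL : 1 ≤ L)
    (hA : A.card ≤ 2 ^ L) :
    ∃ T ⊆ X, (T.card : ℝ) ≤ 2 * L / β ∧ ∀ a ∈ A, ∃ x ∈ T, R a x := by
  have hL0 : (1 : ℝ) ≤ L := by exact_mod_cast hL
  obtain ⟨T, hT, hc, hb⟩ := cover A X hX R β hβ h ⌈(L : ℝ) / β⌉₊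
  refine ⟨T, hT, ?_, ?_⟩
  · have h1 : ((⌈(L : ℝ) / β⌉₊ : ℕ) : ℝ) < L / β + 1 := Nat.ceil_lt_add_one (by positivity)
    have h2 : (T.card : ℝ) ≤ (⌈(L : ℝ) / β⌉₊ : ℕ) := by exact_mod_cast hc
    have h3 : 1 ≤ (L : ℝ) / β := by
      rw [one_le_div hβ0]; linarith
    have h4 : 2 * (L : ℝ) / β = L / β + L / β := by ring
    linarith
  · have h1 : (1 - β) ^ ⌈(L : ℝ) / β⌉₊ * (A.card : ℝ) < 1 := by
      have h2 : 1 - β ≤ Real.exp (-β) := by
        have := Real.add_one_le_exp (-β); linarith
      have h3 : (1 - β) ^ ⌈(L : ℝ) / β⌉₊ ≤ Real.exp (-L) := by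
        calc (1 - β) ^ ⌈(L : ℝ) / β⌉₊ ≤ Real.exp (-β) ^ ⌈(L : ℝ) / β⌉₊ :=
              pow_le_pow_left₀ (by linarith) h2 _
          _ = Real.exp (-(β * ⌈(L : ℝ) / β⌉₊)) := by
              rw [← Real.exp_nat_mul]; congr 1; ring
          _ ≤ Real.exp (-L) := by
              apply Real.exp_le_exp.2
              have h4 : (L : ℝ) / β ≤ ⌈(L : ℝ) / β⌉₊ := Nat.le_ceil _
              have h5 : (L : ℝ) ≤ ⌈(L : ℝ) / β⌉₊ * β := (div_le_iff₀ hβ0).1 h4
              linarith
      have h6 : (A.card : ℝ) ≤ 2 ^ L := by exact_mod_cast hA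
      have h7 : Real.exp (-L) * (2 : ℝ) ^ L < 1 := by
        rw [Real.exp_neg, inv_mul_lt_iff₀ (Real.exp_pos _), mul_one]
        have h8 : Real.exp (L : ℝ) = Real.exp 1 ^ L := by
          rw [← Real.exp_nat_mul, mul_one]
        rw [h8]
        apply pow_lt_pow_left₀ _ (by norm_num) (by omega)
        have := Real.exp_one_gt_d9; linarith
      calc (1 - β) ^ ⌈(L : ℝ) / β⌉₊ * (A.card : ℝ) ≤ Real.exp (-L) * 2 ^ L :=
            mul_le_mul h3 h6 (by positivity) (Real.exp_pos _).le
        _ < 1 := h7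
    have h2 : ((A.filter fun a => ∀ x ∈ T, ¬ R a x).card : ℝ) < 1 := lt_of_le_of_lt hb h1
    have h3 : (A.filter fun a => ∀ x ∈ T, ¬ R a x).card = 0 := by
      have : (A.filter fun a => ∀ x ∈ T, ¬ R a x).card < 1 := by exact_mod_cast h2
      omega
    intro a ha
    by_contra hcon
    push Not at hcon
    have h4 : a ∈ A.filter fun a => ∀ x ∈ T, ¬ R a x := Finset.mem_filter.2 ⟨ha, hcon⟩
    rw [Finset.card_eq_zero.1 h3] at h4
    exact absurd h4 (Finset.notMem_empty _)

/-- Sets that meet `S` in exactly `i` points. -/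
theorem count_inter {α : Type*} [DecidableEq α] (V S : Finset α) (hS : S ⊆ V) (n i : ℕ)
    (hi : i ≤ n) :
    S.card.choose i * (V.card - S.card).choose (n - i) ≤
      ((V.powersetCard n).filter fun E => (E ∩ S).card = i).card := by
  have h1 : ((S.powersetCard i) ×ˢ ((V \ S).powersetCard (n - i))).card =
      S.card.choose i * (V.card - S.card).choose (n - i) := by
    rw [Finset.card_product, Finset.card_powersetCard, Finset.card_powersetCard,
      Finset.card_sdiff_of_subset hS]
  rw [← h1]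
  refine Finset.card_le_card_of_injOn (fun P => P.1 ∪ P.2) ?_ ?_
  · rintro ⟨P, Q⟩ hP
    simp only [Finset.coe_product, Set.mem_prod, Finset.mem_coe, Finset.mem_powersetCard] at hP
    obtain ⟨⟨hP1, hP2⟩, hQ1, hQ2⟩ := hP
    have hd : Disjoint P Q := by
      rw [Finset.disjoint_left]
      intro v hv hv'
      exact (Finset.mem_sdiff.1 (hQ1 hv')).2 (hP1 hv)
    simp only [Finset.coe_filter, Finset.mem_powersetCard, Set.mem_ofPred_eq]
    refine ⟨⟨?_, ?_⟩, ?_⟩
    · exact Finset.union_subset (hP1.trans hS) (hQ1.trans Finset.sdiff_subset)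
    · rw [Finset.card_union_of_disjoint hd, hP2, hQ2]; omega
    · have : (P ∪ Q) ∩ S = P := by
        ext v
        simp only [Finset.mem_inter, Finset.mem_union]
        constructor
        · rintro ⟨h | h, h'⟩
          · exact h
          · exact absurd h' (Finset.mem_sdiff.1 (hQ1 h)).2
        · intro h
          exact ⟨Or.inl h, hP1 h⟩
      rw [this, hP2]
  · rintro ⟨P, Q⟩ hP ⟨P', Q'⟩ hP' heq
    simp only [Finset.coe_product, Set.mem_prod, Finset.mem_coe, Finset.mem_powersetCard] at hP hP'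
    obtain ⟨⟨hP1, hP2⟩, hQ1, hQ2⟩ := hP
    obtain ⟨⟨hP1', hP2'⟩, hQ1', hQ2'⟩ := hP'
    simp only at heq
    have key : ∀ v, (v ∈ P ↔ v ∈ P') ∧ (v ∈ Q ↔ v ∈ Q') := by
      intro v
      have h2 : v ∈ P ∪ Q ↔ v ∈ P' ∪ Q' := by rw [heq]
      simp only [Finset.mem_union] at h2
      have a1 : v ∈ P → v ∈ S := fun h => hP1 h
      have a2 : v ∈ P' → v ∈ S := fun h => hP1' h
      have a3 : v ∈ Q → v ∉ S := fun h => (Finset.mem_sdiff.1 (hQ1 h)).2
      have a4 : v ∈ Q' → v ∉ S := fun h => (Finset.mem_sdiff.1 (hQ1' h)).2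
      tauto
    rw [Prod.mk.injEq]
    exact ⟨Finset.ext fun v => (key v).1, Finset.ext fun v => (key v).2⟩

theorem desc_ratio {N k n : ℕ} (hN : n + k ≤ N) (hn : n < N) :
    ∀ m ≤ n, (1 - (k : ℝ) / (N - n)) ^ m * (N.descFactorial m : ℝ) ≤
      ((N - k).descFactorial m : ℝ) := by
  have hn1 : (n : ℝ) < N := by exact_mod_cast hn
  have hd : (0 : ℝ) < (N : ℝ) - n := by linarith
  have hk : (k : ℝ) + n ≤ N := by exact_mod_cast (by omega : k + n ≤ N)
  have hr : 0 ≤ 1 - (k : ℝ) / (N - n) := by
    rw [sub_nonneg, div_le_one hd]; linarith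
  intro m
  induction m with
  | zero => intro _; simp
  | succ m ih =>
    intro hm
    have ih' := ih (by omega)
    rw [Nat.descFactorial_succ, Nat.descFactorial_succ, pow_succ]
    push_cast
    have h1 : ((N - m : ℕ) : ℝ) = (N : ℝ) - m := by
      rw [Nat.cast_sub (by omega)]
    have h2 : ((N - k - m : ℕ) : ℝ) = (N : ℝ) - k - m := by
      rw [Nat.cast_sub (by omega), Nat.cast_sub (by omega)]
    rw [h1, h2]
    have hm1 : (m : ℝ) ≤ n := by exact_mod_cast (by omega : m ≤ n)
    have h3 : (1 - (k : ℝ) / (N - n)) * ((N : ℝ) - m) ≤ (N : ℝ) - k - m := by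
      have h4 : (k : ℝ) ≤ k / (N - n) * ((N : ℝ) - m) := by
        rw [div_mul_eq_mul_div, le_div_iff₀ hd]
        apply mul_le_mul_of_nonneg_left _ (by positivity)
        linarith
      nlinarith
    have h5 : 0 ≤ (N : ℝ) - m := by linarith
    calc (1 - (k : ℝ) / (N - n)) ^ m * (1 - (k : ℝ) / (N - n)) *
          (((N : ℝ) - m) * (N.descFactorial m : ℝ))
        = ((1 - (k : ℝ) / (N - n)) * ((N : ℝ) - m)) *
          ((1 - (k : ℝ) / (N - n)) ^ m * (N.descFactorial m : ℝ)) := by ring
      _ ≤ ((N : ℝ) - k - m) * ((N - k).descFactorial m : ℝ) := by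
          apply mul_le_mul h3 ih' (by positivity)
          have : 0 ≤ (1 - (k : ℝ) / (N - n)) * ((N : ℝ) - m) := mul_nonneg hr h5
          linarith

theorem choose_ge {N k n : ℕ} (hN : n + k ≤ N) (hn : n < N) :
    (1 - (k : ℝ) / (N - n)) ^ n * (N.choose n : ℝ) ≤ ((N - k).choose n : ℝ) := by
  have h := desc_ratio hN hn n le_rfl
  rw [Nat.descFactorial_eq_factorial_mul_choose, Nat.descFactorial_eq_factorial_mul_choose] at h
  push_cast at h
  have h1 : (0 : ℝ) < (n.factorial : ℝ) := by exact_mod_cast n.factorial_pos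
  have h2 : (n.factorial : ℝ) * ((1 - (k : ℝ) / (N - n)) ^ n * (N.choose n : ℝ)) ≤
      (n.factorial : ℝ) * ((N - k).choose n : ℝ) := by
    linarith [mul_left_comm ((1 - (k : ℝ) / (N - n)) ^ n) (n.factorial : ℝ) (N.choose n : ℝ)]
  exact le_of_mul_le_mul_left h2 h1

/-- `C(N, n) n (n-1) ⋯ (n-i+1) (N-k-n)^(n-i) ≤ C(N-k, n-i) N^n`. -/
theorem choose_mul_le {N n k i : ℕ} (hi : i ≤ n) (hk : k + n ≤ N) :
    N.choose n * n.descFactorial i * (N - k - n) ^ (n - i) ≤ (N - k).choose (n - i) * N ^ n := by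
  have h1 : 0 < (n - i).factorial := Nat.factorial_pos _
  apply Nat.le_of_mul_le_mul_left _ h1
  have h2 : (n - i).factorial * n.descFactorial i = n.factorial :=
    Nat.factorial_mul_descFactorial hi
  calc (n - i).factorial * (N.choose n * n.descFactorial i * (N - k - n) ^ (n - i))
      = ((n - i).factorial * n.descFactorial i) * N.choose n * (N - k - n) ^ (n - i) := by ring
    _ = N.descFactorial n * (N - k - n) ^ (n - i) := by
        rw [h2, ← Nat.descFactorial_eq_factorial_mul_choose]
    _ ≤ N ^ n * (N - k).descFactorial (n - i) := by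
        apply Nat.mul_le_mul (Nat.descFactorial_le_pow _ _)
        refine le_trans ?_ (Nat.pow_sub_le_descFactorial _ _)
        apply Nat.pow_le_pow_left
        omega
    _ = (n - i).factorial * ((N - k).choose (n - i) * N ^ n) := by
        rw [Nat.descFactorial_eq_factorial_mul_choose]; ring

/-- The mode of the binomial distribution with parameters `n` and `s / n` is `s`. -/
theorem mode {n s : ℕ} (hn : s ≤ n) :
    n ^ n ≤ (n + 1) * (n.choose s * s ^ s * (n - s) ^ (n - s)) := by
  obtain ⟨d, rfl⟩ := Nat.exists_eq_add_of_le hn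
  have hd : s + d - s = d := by omega
  rw [hd]
  have up : ∀ j, j + 1 ≤ s → (s + d).choose j * s ^ j * d ^ (s + d - j) ≤
      (s + d).choose (j + 1) * s ^ (j + 1) * d ^ (s + d - (j + 1)) := by
    intro j hj
    apply Nat.le_of_mul_le_mul_left _ (Nat.succ_pos j)
    have h1 : (s + d).choose (j + 1) * (j + 1) = (s + d).choose j * (s + d - j) :=
      Nat.choose_succ_right_eq _ _
    have h2 : d ^ (s + d - j) = d ^ (s + d - (j + 1)) * d := by
      rw [← pow_succ]; congr 1; omega
    have h3 : (j + 1) * d ≤ (s + d - j) * s := by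
      have h4 : d + 1 ≤ s + d - j := by omega
      calc (j + 1) * d ≤ s * d := Nat.mul_le_mul_right _ hj
        _ ≤ (d + 1) * s := by nlinarith
        _ ≤ (s + d - j) * s := Nat.mul_le_mul_right _ h4
    calc (j + 1) * ((s + d).choose j * s ^ j * d ^ (s + d - j))
        = ((s + d).choose j * s ^ j * d ^ (s + d - (j + 1))) * ((j + 1) * d) := by rw [h2]; ring
      _ ≤ ((s + d).choose j * s ^ j * d ^ (s + d - (j + 1))) * ((s + d - j) * s) :=
          Nat.mul_le_mul_left _ h3
      _ = ((s + d).choose j * (s + d - j)) * (s ^ (j + 1) * d ^ (s + d - (j + 1))) := by ring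
      _ = (j + 1) * ((s + d).choose (j + 1) * s ^ (j + 1) * d ^ (s + d - (j + 1))) := by
          rw [← h1]; ring
  have down : ∀ j, s ≤ j → j + 1 ≤ s + d →
      (s + d).choose (j + 1) * s ^ (j + 1) * d ^ (s + d - (j + 1)) ≤
      (s + d).choose j * s ^ j * d ^ (s + d - j) := by
    intro j hj hj'
    apply Nat.le_of_mul_le_mul_left _ (Nat.succ_pos j)
    have h1 : (s + d).choose (j + 1) * (j + 1) = (s + d).choose j * (s + d - j) :=
      Nat.choose_succ_right_eq _ _
    have h2 : d ^ (s + d - j) = d ^ (s + d - (j + 1)) * d := by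
      rw [← pow_succ]; congr 1; omega
    have h3 : (s + d - j) * s ≤ (j + 1) * d := by
      have h4 : s + d - j ≤ d := by omega
      calc (s + d - j) * s ≤ d * s := Nat.mul_le_mul_right _ h4
        _ ≤ (j + 1) * d := by nlinarith
    calc (j + 1) * ((s + d).choose (j + 1) * s ^ (j + 1) * d ^ (s + d - (j + 1)))
        = ((s + d).choose (j + 1) * (j + 1)) * (s ^ (j + 1) * d ^ (s + d - (j + 1))) := by ring
      _ = ((s + d).choose j * s ^ j * d ^ (s + d - (j + 1))) * ((s + d - j) * s) := by
          rw [h1]; ring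
      _ ≤ ((s + d).choose j * s ^ j * d ^ (s + d - (j + 1))) * ((j + 1) * d) :=
          Nat.mul_le_mul_left _ h3
      _ = (j + 1) * ((s + d).choose j * s ^ j * d ^ (s + d - j)) := by rw [h2]; ring
  have hup : ∀ i ≤ s, (s + d).choose (s - i) * s ^ (s - i) * d ^ (s + d - (s - i)) ≤
      (s + d).choose s * s ^ s * d ^ (s + d - s) := by
    intro i
    induction i with
    | zero => intro _; simp
    | succ i ih =>
      intro hi
      refine le_trans ?_ (ih (by omega))
      have := up (s - (i + 1)) (by omega)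
      have h1 : s - (i + 1) + 1 = s - i := by omega
      rw [h1] at this
      exact this
  have hdown : ∀ i ≤ d, (s + d).choose (s + i) * s ^ (s + i) * d ^ (s + d - (s + i)) ≤
      (s + d).choose s * s ^ s * d ^ (s + d - s) := by
    intro i
    induction i with
    | zero => intro _; simp
    | succ i ih =>
      intro hi
      refine le_trans ?_ (ih (by omega))
      exact down (s + i) (by omega) (by omega)
  rw [hd] at hup hdown
  calc (s + d) ^ (s + d) = ∑ j ∈ Finset.range (s + d + 1), s ^ j * d ^ (s + d - j) *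
        (s + d).choose j := add_pow _ _ _
    _ ≤ ∑ j ∈ Finset.range (s + d + 1), (s + d).choose s * s ^ s * d ^ d := by
        apply Finset.sum_le_sum
        intro j hj
        have hj' : j < s + d + 1 := Finset.mem_range.1 hj
        have h1 : s ^ j * d ^ (s + d - j) * (s + d).choose j =
          (s + d).choose j * s ^ j * d ^ (s + d - j) := by ring
        rw [h1]
        rcases Nat.lt_or_ge j s with h | h
        · have := hup (s - j) (by omega)
          have h2 : s - (s - j) = j := by omega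
          rw [h2] at this
          exact this
        · have := hdown (j - s) (by omega)
          have h2 : s + (j - s) = j := by omega
          rw [h2] at this
          exact this
    _ = (s + d + 1) * ((s + d).choose s * s ^ s * d ^ d) := by
        rw [Finset.sum_const, Finset.card_range, smul_eq_mul]

end Pool.Agent.Y78.PB
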