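import Mathlib

/-!
# Property B(s): definitions
-/

set_option autoImplicit false

namespace Pool.Agent.Y78.PB

open Finset

/-- A finite family `F` of finite sets has property `B(s)` if there is a set `S` that meets every
member of `F` in at least one and in fewer than `s` elements. -/
def PropertyB {α : Type*} [DecidableEq α] (F : Finset (Finset α)) (s : ℕ) : Prop :=
  ∃ S : Finset α, ∀ E ∈ F, 0 < (E ∩ S).card ∧ (E ∩ S).card < s

/-- `minEdges n s` is `m(n, s)`, the least number of members of a family of `n`-sets that does not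
have property `B(s)`. -/
noncomputable def minEdges (n s : ℕ) : ℕ :=
  sInf {k | ∃ F : Finset (Finset ℕ), F.card = k ∧ (∀ E ∈ F, E.card = n) ∧ ¬ PropertyB F s}

/-- The number `y` with `y ^ s = (s / n) ^ s (1 - s / n) ^ (n - s)`. -/
noncomputable def yy (n s : ℕ) : ℝ := (s / n) * (1 - s / n) ^ (((n : ℝ) - s) / s)

/-- The growth function. -/
noncomputable def G (n s : ℕ) : ℝ := (1 + yy n s) ^ n

theorem yy_pow {n s : ℕ} (hs : 1 ≤ s) (hn : s ≤ n) :
    yy n s ^ s = ((s : ℝ) / n) ^ s * (((n : ℝ) - s) / n) ^ (n - s) := by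
  have hs0 : (0 : ℝ) < s := by exact_mod_cast hs
  have hn0 : (0 : ℝ) < n := by exact_mod_cast (by omega : 0 < n)
  have hsn : (s : ℝ) ≤ n := by exact_mod_cast hn
  have h1 : (0 : ℝ) ≤ 1 - s / n := by
    rw [sub_nonneg, div_le_one hn0]; exact hsn
  unfold yy
  rw [mul_pow]
  congr 1
  rw [← Real.rpow_natCast ((1 - (s : ℝ) / n) ^ (((n : ℝ) - s) / s)) s, ← Real.rpow_mul h1,
    div_mul_cancel₀ _ hs0.ne', ← Nat.cast_sub hn, Real.rpow_natCast]
  congr 1
  rw [Nat.cast_sub hn]
  field_simp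

theorem yy_pos {n s : ℕ} (hs : 1 ≤ s) (hn : s ≤ n) : 0 < yy n s := by
  have hs0 : (0 : ℝ) < s := by exact_mod_cast hs
  have hn0 : (0 : ℝ) < n := by exact_mod_cast (by omega : 0 < n)
  unfold yy
  rcases Nat.lt_or_ge s n with h | h
  · have h1 : (0 : ℝ) < 1 - s / n := by
      rw [sub_pos, div_lt_one hn0]; exact_mod_cast h
    positivity
  · have h2 : n = s := le_antisymm h hn
    subst h2
    rw [div_self hs0.ne']
    simp

theorem yy_le {n s : ℕ} (hs : 1 ≤ s) (hn : s ≤ n) : yy n s ≤ (s : ℝ) / n := by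
  have hs0 : (0 : ℝ) < s := by exact_mod_cast hs
  have hn0 : (0 : ℝ) < n := by exact_mod_cast (by omega : 0 < n)
  have hsn : (s : ℝ) ≤ n := by exact_mod_cast hn
  have h1 : (0 : ℝ) ≤ 1 - s / n := by
    rw [sub_nonneg, div_le_one hn0]; exact hsn
  unfold yy
  have h2 : (1 - (s : ℝ) / n) ^ (((n : ℝ) - s) / s) ≤ 1 := by
    apply Real.rpow_le_one h1
    · have : (0 : ℝ) ≤ s / n := by positivity
      linarith
    · apply div_nonneg <;> linarith
  have h3 : (0 : ℝ) ≤ s / n := by positivity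
  calc (s : ℝ) / n * (1 - (s : ℝ) / n) ^ (((n : ℝ) - s) / s) ≤ s / n * 1 :=
        mul_le_mul_of_nonneg_left h2 h3
    _ = s / n := mul_one _

theorem yy_le_one {n s : ℕ} (hs : 1 ≤ s) (hn : s ≤ n) : yy n s ≤ 1 := by
  have hn0 : (0 : ℝ) < n := by exact_mod_cast (by omega : 0 < n)
  refine (yy_le hs hn).trans ?_
  rw [div_le_one hn0]; exact_mod_cast hn

/-- `y ≥ s / (e n)`. -/
theorem le_yy {n s : ℕ} (hs : 1 ≤ s) (hn : s ≤ n) : (s : ℝ) / n * Real.exp (-1) ≤ yy n s := by
  have hs0 : (0 : ℝ) < s := by exact_mod_cast hs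
  have hn0 : (0 : ℝ) < n := by exact_mod_cast (by omega : 0 < n)
  unfold yy
  apply mul_le_mul_of_nonneg_left _ (by positivity)
  rcases Nat.lt_or_ge s n with h | h
  · have hsn : (s : ℝ) < n := by exact_mod_cast h
    have h1 : (0 : ℝ) < 1 - s / n := by
      rw [sub_pos, div_lt_one hn0]; exact hsn
    rw [Real.rpow_def_of_pos h1]
    apply Real.exp_le_exp.2
    have h2 : -Real.log (1 - (s : ℝ) / n) ≤ (s : ℝ) / (n - s) := by
      have h3 := Real.log_le_sub_one_of_pos (inv_pos.2 h1)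
      rw [Real.log_inv] at h3
      have h4 : (1 - (s : ℝ) / n)⁻¹ - 1 = s / (n - s) := by
        have h5 : (n : ℝ) - s ≠ 0 := by linarith
        have h6 : 1 - (s : ℝ) / n = (n - s) / n := by field_simp
        rw [h6, inv_div]
        field_simp
        ring
      linarith
    have h7 : (0 : ℝ) < ((n : ℝ) - s) / s := by
      apply div_pos <;> linarith
    have h8 : -Real.log (1 - (s : ℝ) / n) * (((n : ℝ) - s) / s) ≤
        (s : ℝ) / (n - s) * (((n : ℝ) - s) / s) := mul_le_mul_of_nonneg_right h2 h7.le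
    have h9 : (s : ℝ) / (n - s) * (((n : ℝ) - s) / s) = 1 := by
      have h5 : (n : ℝ) - s ≠ 0 := by linarith
      field_simp
    linarith
  · have h2 : n = s := le_antisymm h hn
    subst h2
    rw [div_self hs0.ne']
    simp

theorem G_pos {n s : ℕ} (hs : 1 ≤ s) (hn : s ≤ n) : 0 < G n s := by
  have := yy_pos hs hn
  unfold G; positivity

end Pool.Agent.Y78.PB
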