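import Pool.Agent.Y78.PB.Two

/-!
# Families of pairs of sets, and the blow-up
-/

set_option autoImplicit false

namespace Pool.Agent.Y78.PB

open Finset

/-- Pairs that meet a pair of sets in `s` points. -/
theorem count_pairs {α : Type*} [DecidableEq α] (V S₁ S₂ : Finset α) (h₁ : S₁ ⊆ V) (h₂ : S₂ ⊆ V)
    (a b s : ℕ) (ha : s ≤ a) (hb : s ≤ b) :
    ∑ ij ∈ antidiagonal s,
        (S₁.card.choose ij.1 * (V.card - S₁.card).choose (a - ij.1)) *
        (S₂.card.choose ij.2 * (V.card - S₂.card).choose (b - ij.2)) ≤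
      (((V.powersetCard a) ×ˢ (V.powersetCard b)).filter
        fun E => (E.1 ∩ S₁).card + (E.2 ∩ S₂).card = s).card := by
  have h3 : ∑ ij ∈ antidiagonal s,
        (S₁.card.choose ij.1 * (V.card - S₁.card).choose (a - ij.1)) *
        (S₂.card.choose ij.2 * (V.card - S₂.card).choose (b - ij.2)) ≤
      ∑ ij ∈ antidiagonal s, (((V.powersetCard a).filter fun E => (E ∩ S₁).card = ij.1) ×ˢ
        ((V.powersetCard b).filter fun E => (E ∩ S₂).card = ij.2)).card := by
    apply Finset.sum_le_sum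
    rintro ⟨i, j⟩ hij
    have hij' : i + j = s := Finset.HasAntidiagonal.mem_antidiagonal.1 hij
    rw [Finset.card_product]
    exact Nat.mul_le_mul (count_inter V S₁ h₁ a i (by omega)) (count_inter V S₂ h₂ b j (by omega))
  refine h3.trans ?_
  rw [← Finset.card_biUnion]
  · apply Finset.card_le_card
    intro E hE
    rw [Finset.mem_biUnion] at hE
    obtain ⟨⟨i, j⟩, hij, hE⟩ := hE
    have hij' : i + j = s := Finset.HasAntidiagonal.mem_antidiagonal.1 hij
    rw [Finset.mem_product, Finset.mem_filter, Finset.mem_filter] at hE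
    rw [Finset.mem_filter, Finset.mem_product]
    refine ⟨⟨hE.1.1, hE.2.1⟩, ?_⟩
    rw [hE.1.2, hE.2.2]; exact hij'
  · rintro ⟨i, j⟩ _ ⟨i', j'⟩ _ hne
    simp only [Function.onFun]
    rw [Finset.disjoint_left]
    intro E hE hE'
    rw [Finset.mem_product, Finset.mem_filter, Finset.mem_filter] at hE hE'
    apply hne
    rw [Prod.mk.injEq]
    exact ⟨hE.1.2.symm.trans hE'.1.2, hE.2.2.symm.trans hE'.2.2⟩

theorem key_two {s : ℕ} (hs : 2 ≤ s) (S₁ S₂ : Finset ℕ)
    (h₁ : S₁ ⊆ Finset.range (6 * (4 * s ^ 2 + 1) ^ 2))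
    (h₂ : S₂ ⊆ Finset.range (6 * (4 * s ^ 2 + 1) ^ 2)) :
    Real.exp (-(s * Real.exp (-1))) / (25 * s) *
      ((((Finset.range (6 * (4 * s ^ 2 + 1) ^ 2)).powersetCard (4 * s ^ 2)) ×ˢ
        ((Finset.range (6 * (4 * s ^ 2 + 1) ^ 2)).powersetCard (4 * s ^ 2 + 1))).card : ℝ) ≤
      (((((Finset.range (6 * (4 * s ^ 2 + 1) ^ 2)).powersetCard (4 * s ^ 2)) ×ˢ
        ((Finset.range (6 * (4 * s ^ 2 + 1) ^ 2)).powersetCard (4 * s ^ 2 + 1))).filter
        fun E => ((E.1 ∩ S₁).card + (E.2 ∩ S₂).card = 0 ∨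
          s ≤ (E.1 ∩ S₁).card + (E.2 ∩ S₂).card)).card : ℝ) := by
  have hsa : s ≤ 4 * s ^ 2 := by nlinarith
  set a := 4 * s ^ 2 with ha
  set N := 6 * (a + 1) ^ 2 with hN
  have hcardV : (Finset.range N).card = N := Finset.card_range N
  rw [Finset.card_product, Finset.card_powersetCard, Finset.card_powersetCard, hcardV]
  rw [Nat.cast_mul]
  set c₀ : ℝ := 6 * (4 * s ^ 2 + 1) * s * Real.exp (-1) with hc₀
  have hc0 : 0 ≤ c₀ := by positivity
  by_cases hk : (S₁.card : ℝ) + S₂.card < c₀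
  · refine (case_one hs hk).trans ?_
    have e1 := count_inter (Finset.range N) S₁ h₁ a 0 (Nat.zero_le _)
    have e2 := count_inter (Finset.range N) S₂ h₂ (a + 1) 0 (Nat.zero_le _)
    rw [Nat.choose_zero_right, one_mul, hcardV, Nat.sub_zero] at e1 e2
    have e3 : (((Finset.range N).powersetCard a).filter fun E => (E ∩ S₁).card = 0).card *
        (((Finset.range N).powersetCard (a + 1)).filter fun E => (E ∩ S₂).card = 0).card ≤
        ((((Finset.range N).powersetCard a) ×ˢ ((Finset.range N).powersetCard (a + 1))).filter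
        fun E => ((E.1 ∩ S₁).card + (E.2 ∩ S₂).card = 0 ∨
          s ≤ (E.1 ∩ S₁).card + (E.2 ∩ S₂).card)).card := by
      rw [← Finset.card_product]
      apply Finset.card_le_card
      intro E hE
      rw [Finset.mem_product, Finset.mem_filter, Finset.mem_filter] at hE
      rw [Finset.mem_filter, Finset.mem_product]
      refine ⟨⟨hE.1.1, hE.2.1⟩, Or.inl ?_⟩
      rw [hE.1.2, hE.2.2]
    exact_mod_cast (Nat.mul_le_mul e1 e2).trans e3
  · push Not at hk
    have hk1 : ⌈c₀⌉₊ ≤ S₁.card + S₂.card := by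
      apply Nat.ceil_le.2; push_cast; exact hk
    obtain ⟨T₁, hT₁, hc₁⟩ := Finset.exists_subset_card_eq
      (show min S₁.card ⌈c₀⌉₊ ≤ S₁.card from min_le_left _ _)
    obtain ⟨T₂, hT₂, hc₂⟩ := Finset.exists_subset_card_eq
      (show ⌈c₀⌉₊ - min S₁.card ⌈c₀⌉₊ ≤ S₂.card by omega)
    have hsum : T₁.card + T₂.card = ⌈c₀⌉₊ := by omega
    have hsum' : (T₁.card : ℝ) + T₂.card = (⌈c₀⌉₊ : ℕ) := by exact_mod_cast hsum
    have hk2 : c₀ ≤ (T₁.card : ℝ) + T₂.card := by rw [hsum']; exact Nat.le_ceil _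
    have hk3 : (T₁.card : ℝ) + T₂.card < c₀ + 1 := by
      rw [hsum']; exact Nat.ceil_lt_add_one hc0
    refine (case_two hs hk2 hk3).trans ?_
    have e1 := count_pairs (Finset.range N) T₁ T₂ (hT₁.trans h₁) (hT₂.trans h₂) a (a + 1) s
      hsa (by omega)
    rw [hcardV] at e1
    have e2 : ((((Finset.range N).powersetCard a) ×ˢ ((Finset.range N).powersetCard (a + 1))).filter
        fun E => (E.1 ∩ T₁).card + (E.2 ∩ T₂).card = s).card ≤
        ((((Finset.range N).powersetCard a) ×ˢ ((Finset.range N).powersetCard (a + 1))).filter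
        fun E => ((E.1 ∩ S₁).card + (E.2 ∩ S₂).card = 0 ∨
          s ≤ (E.1 ∩ S₁).card + (E.2 ∩ S₂).card)).card := by
      apply Finset.card_le_card
      intro E hE
      rw [Finset.mem_filter] at hE ⊢
      refine ⟨hE.1, Or.inr ?_⟩
      rw [← hE.2]
      exact Nat.add_le_add (Finset.card_le_card (Finset.inter_subset_inter_left hT₁))
        (Finset.card_le_card (Finset.inter_subset_inter_left hT₂))
    have e3 := e1.trans e2
    exact_mod_cast e3

/-- Families of pairs. -/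
theorem exists_pairs {s : ℕ} (hs : 2 ≤ s) :
    ∃ T : Finset (Finset ℕ × Finset ℕ),
      (∀ E ∈ T, E.1 ⊆ Finset.range (6 * (4 * s ^ 2 + 1) ^ 2) ∧
        E.2 ⊆ Finset.range (6 * (4 * s ^ 2 + 1) ^ 2) ∧ E.1.card = 4 * s ^ 2 ∧
        E.2.card = 4 * s ^ 2 + 1) ∧
      (∀ S₁ S₂ : Finset ℕ, ∃ E ∈ T, (E.1 ∩ S₁).card + (E.2 ∩ S₂).card = 0 ∨
          s ≤ (E.1 ∩ S₁).card + (E.2 ∩ S₂).card) ∧
      (T.card : ℝ) ≤ 15000 * s ^ 5 * Real.exp (s * Real.exp (-1)) := by
  have hs0 : (2 : ℝ) ≤ s := by exact_mod_cast hs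
  set a := 4 * s ^ 2 with ha
  set N := 6 * (a + 1) ^ 2 with hN
  have hab : a + 1 ≤ N := by rw [hN]; nlinarith
  have hX : (((Finset.range N).powersetCard a) ×ˢ ((Finset.range N).powersetCard (a + 1))).Nonempty := by
    rw [Finset.nonempty_product, Finset.powersetCard_nonempty, Finset.powersetCard_nonempty,
      Finset.card_range]
    exact ⟨by omega, hab⟩
  have hβ0 : 0 < Real.exp (-(s * Real.exp (-1))) / (25 * s) := by positivity
  have hβ1 : Real.exp (-(s * Real.exp (-1))) / (25 * s) ≤ 1 := by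
    rw [div_le_one (by positivity)]
    have h1 : Real.exp (-(s * Real.exp (-1))) ≤ 1 := by
      apply Real.exp_le_one_iff.2
      have : 0 ≤ (s : ℝ) * Real.exp (-1) := by positivity
      linarith
    linarith
  obtain ⟨T, hT, hc, hcov⟩ := cover'
    ((Finset.range N).powerset ×ˢ (Finset.range N).powerset)
    (((Finset.range N).powersetCard a) ×ˢ ((Finset.range N).powersetCard (a + 1))) hX
    (fun S E => ((E.1 ∩ S.1).card + (E.2 ∩ S.2).card = 0 ∨
          s ≤ (E.1 ∩ S.1).card + (E.2 ∩ S.2).card))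
    (Real.exp (-(s * Real.exp (-1))) / (25 * s)) hβ0 hβ1
    (fun S hS => by
      rw [Finset.mem_product, Finset.mem_powerset, Finset.mem_powerset] at hS
      exact key_two hs S.1 S.2 hS.1 hS.2) (2 * N) (by omega)
    (by
      rw [Finset.card_product, Finset.card_powerset, Finset.card_range, ← pow_add]
      apply Nat.pow_le_pow_right (by norm_num); omega)
  refine ⟨T, ?_, ?_, ?_⟩
  · intro E hE
    have h := hT hE
    rw [Finset.mem_product, Finset.mem_powersetCard, Finset.mem_powersetCard] at h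
    exact ⟨h.1.1, h.2.1, h.1.2, h.2.2⟩
  · intro S₁ S₂
    obtain ⟨E, hE, h⟩ := hcov (S₁ ∩ Finset.range N, S₂ ∩ Finset.range N) (by
      rw [Finset.mem_product, Finset.mem_powerset, Finset.mem_powerset]
      exact ⟨Finset.inter_subset_right, Finset.inter_subset_right⟩)
    refine ⟨E, hE, ?_⟩
    have h3 := hT hE
    rw [Finset.mem_product, Finset.mem_powersetCard, Finset.mem_powersetCard] at h3
    have h1 : E.1 ∩ (S₁ ∩ Finset.range N) = E.1 ∩ S₁ := by
      ext v
      simp only [Finset.mem_inter]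
      constructor
      · rintro ⟨a, b, c⟩; exact ⟨a, b⟩
      · rintro ⟨a, b⟩; exact ⟨a, b, h3.1.1 a⟩
    have h2 : E.2 ∩ (S₂ ∩ Finset.range N) = E.2 ∩ S₂ := by
      ext v
      simp only [Finset.mem_inter]
      constructor
      · rintro ⟨a, b, c⟩; exact ⟨a, b⟩
      · rintro ⟨a, b⟩; exact ⟨a, b, h3.2.1 a⟩
    simp only [h1, h2] at h
    exact h
  · refine hc.trans ?_
    have hNr : ((2 * N : ℕ) : ℝ) = 12 * (4 * (s : ℝ) ^ 2 + 1) ^ 2 := by
      rw [hN, ha]; push_cast; ring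
    rw [hNr]
    have h1 : 4 * (s : ℝ) ^ 2 + 1 ≤ 5 * s ^ 2 := by nlinarith
    have h2 : (4 * (s : ℝ) ^ 2 + 1) ^ 2 ≤ (5 * s ^ 2) ^ 2 :=
      pow_le_pow_left₀ (by positivity) h1 2
    rw [div_div_eq_mul_div, Real.exp_neg, div_inv_eq_mul]
    calc 2 * (12 * (4 * (s : ℝ) ^ 2 + 1) ^ 2) * (25 * s) * Real.exp (s * Real.exp (-1))
        ≤ 2 * (12 * (5 * (s : ℝ) ^ 2) ^ 2) * (25 * s) * Real.exp (s * Real.exp (-1)) := by
          gcongr
      _ = _ := by ring

/-- The blow-up of a pair of sets. -/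
def blow (x y : ℕ) (E : Finset ℕ × Finset ℕ) : Finset ((ℕ × ℕ) ⊕ (ℕ × ℕ)) :=
  (E.1 ×ˢ Finset.range x).disjSum (E.2 ×ˢ Finset.range y)

theorem card_blow (x y : ℕ) (E : Finset ℕ × Finset ℕ) :
    (blow x y E).card = E.1.card * x + E.2.card * y := by
  unfold blow
  rw [Finset.card_disjSum, Finset.card_product, Finset.card_product, Finset.card_range,
    Finset.card_range]

theorem not_propertyB_blow {s x y : ℕ} (T : Finset (Finset ℕ × Finset ℕ))
    (hT : ∀ S₁ S₂ : Finset ℕ, ∃ E ∈ T, (E.1 ∩ S₁).card + (E.2 ∩ S₂).card = 0 ∨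
          s ≤ (E.1 ∩ S₁).card + (E.2 ∩ S₂).card) :
    ¬ PropertyB (T.image (blow x y)) s := by
  rintro ⟨S, hS⟩
  set S₁ : Finset ℕ := (S.toLeft.filter fun q => q.2 < x).image Prod.fst with hS₁
  set S₂ : Finset ℕ := (S.toRight.filter fun q => q.2 < y).image Prod.fst with hS₂
  obtain ⟨E, hE, h⟩ := hT S₁ S₂
  have h1 := hS (blow x y E) (Finset.mem_image_of_mem _ hE)
  have h2 : (blow x y E ∩ S).image (Sum.map Prod.fst Prod.fst) =
      (E.1 ∩ S₁).disjSum (E.2 ∩ S₂) := by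
    ext q
    rcases q with v | v
    · simp only [Finset.mem_image, Finset.mem_inter, blow, Finset.inl_mem_disjSum, hS₁,
        Finset.mem_filter, Finset.mem_toLeft]
      constructor
      · rintro ⟨q, ⟨hq1, hq2⟩, hq3⟩
        rcases q with w | w
        · simp only [Sum.map_inl, Sum.inl.injEq] at hq3
          rw [Finset.inl_mem_disjSum, Finset.mem_product, Finset.mem_range] at hq1
          refine ⟨hq3 ▸ hq1.1, w, ⟨hq2, hq1.2⟩, hq3⟩
        · simp at hq3
      · rintro ⟨hv, w, ⟨hw1, hw2⟩, hw3⟩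
        refine ⟨Sum.inl w, ⟨?_, hw1⟩, by simp [hw3]⟩
        rw [Finset.inl_mem_disjSum, Finset.mem_product, Finset.mem_range]
        exact ⟨hw3 ▸ hv, hw2⟩
    · simp only [Finset.mem_image, Finset.mem_inter, blow, Finset.inr_mem_disjSum, hS₂,
        Finset.mem_filter, Finset.mem_toRight]
      constructor
      · rintro ⟨q, ⟨hq1, hq2⟩, hq3⟩
        rcases q with w | w
        · simp at hq3
        · simp only [Sum.map_inr, Sum.inr.injEq] at hq3
          rw [Finset.inr_mem_disjSum, Finset.mem_product, Finset.mem_range] at hq1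
          refine ⟨hq3 ▸ hq1.1, w, ⟨hq2, hq1.2⟩, hq3⟩
      · rintro ⟨hv, w, ⟨hw1, hw2⟩, hw3⟩
        refine ⟨Sum.inr w, ⟨?_, hw1⟩, by simp [hw3]⟩
        rw [Finset.inr_mem_disjSum, Finset.mem_product, Finset.mem_range]
        exact ⟨hw3 ▸ hv, hw2⟩
  have h3 : (E.1 ∩ S₁).card + (E.2 ∩ S₂).card ≤ (blow x y E ∩ S).card := by
    rw [← Finset.card_disjSum, ← h2]
    exact Finset.card_image_le
  have h4 : 0 < (E.1 ∩ S₁).card + (E.2 ∩ S₂).card := by
    rw [← Finset.card_disjSum, ← h2, Finset.card_pos, Finset.image_nonempty, ← Finset.card_pos]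
    exact h1.1
  omega

/-- Transfer to natural numbers. -/
theorem not_propertyB_map {α : Type*} [DecidableEq α] (f : α ↪ ℕ) (F : Finset (Finset α)) (s : ℕ)
    (h : ¬ PropertyB F s) : ¬ PropertyB (F.image (Finset.map f)) s := by
  rintro ⟨S, hS⟩
  apply h
  refine ⟨(F.biUnion id).filter fun a => f a ∈ S, fun E hE => ?_⟩
  have h1 := hS (E.map f) (Finset.mem_image_of_mem _ hE)
  have h2 : E.map f ∩ S = (E ∩ (F.biUnion id).filter fun a => f a ∈ S).map f := by
    ext v
    simp only [Finset.mem_inter, Finset.mem_map, Finset.mem_filter, Finset.mem_biUnion, id]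
    constructor
    · rintro ⟨⟨w, hw, rfl⟩, hv⟩
      exact ⟨w, ⟨hw, ⟨E, hE, hw⟩, hv⟩, rfl⟩
    · rintro ⟨w, ⟨hw, _, hv⟩, rfl⟩
      exact ⟨⟨w, hw, rfl⟩, hv⟩
  rw [h2, Finset.card_map] at h1
  exact h1

theorem large {n s : ℕ} (hs : 2 ≤ s) (hn : (4 * s ^ 2) ^ 2 ≤ n) :
    ∃ F : Finset (Finset ℕ), (∀ E ∈ F, E.card = n) ∧ ¬ PropertyB F s ∧
      (F.card : ℝ) ≤ 15000 * s ^ 5 * Real.exp (s * Real.exp (-1)) := by
  obtain ⟨T, hT1, hT2, hT3⟩ := exists_pairs hs
  set a := 4 * s ^ 2 with ha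
  have ha0 : 0 < a := by rw [ha]; positivity
  -- `n = (q - r) a + r (a + 1)`
  set q := n / a with hq
  set r := n % a with hr
  have hqr : a * q + r = n := Nat.div_add_mod n a
  have hra : r < a := Nat.mod_lt _ ha0
  have hqa : a ≤ q := by
    rw [hq, Nat.le_div_iff_mul_le ha0]; nlinarith
  refine ⟨(T.image (blow (q - r) r)).image (Finset.map (Encodable.encode' _)), ?_, ?_, ?_⟩
  · intro E hE
    rw [Finset.mem_image] at hE
    obtain ⟨E', hE', rfl⟩ := hE
    rw [Finset.mem_image] at hE'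
    obtain ⟨P, hP, rfl⟩ := hE'
    obtain ⟨-, -, h3, h4⟩ := hT1 P hP
    rw [Finset.card_map, card_blow, h3, h4]
    have h5 : a * (q - r) + (a + 1) * r = a * (q - r + r) + r := by ring
    have h6 : q - r + r = q := by omega
    rw [h5, h6]; exact hqr
  · exact not_propertyB_map _ _ _ (not_propertyB_blow T hT2)
  · refine le_trans ?_ hT3
    have h1 : ((T.image (blow (q - r) r)).image (Finset.map (Encodable.encode' _))).card ≤ T.card :=
      Finset.card_image_le.trans Finset.card_image_le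
    exact_mod_cast h1

end Pool.Agent.Y78.PB
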