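import Pool.Agent.Y78.PB.Defs
import Pool.Agent.Y78.PB.Cover

/-!
# The upper bound for `n` at most a power of `s`: a random family
-/

set_option autoImplicit false

namespace Pool.Agent.Y78.PB

open Finset

theorem mode_real {n s : ℕ} (hs : 1 ≤ s) (hn : s ≤ n) :
    1 / ((n : ℝ) + 1) ≤ (n.choose s : ℝ) * yy n s ^ s := by
  have hn0 : (0 : ℝ) < n := by exact_mod_cast (by omega : 0 < n)
  rw [yy_pow hs hn, div_pow, div_pow, div_le_iff₀ (by positivity)]
  have h := mode hn
  have h1 : (n : ℝ) ^ n ≤ (n + 1) * ((n.choose s : ℝ) * (s : ℝ) ^ s * ((n : ℝ) - s) ^ (n - s)) := by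
    have h2 : ((n ^ n : ℕ) : ℝ) ≤ ((n + 1) * (n.choose s * s ^ s * (n - s) ^ (n - s)) : ℕ) := by
      exact_mod_cast h
    push_cast at h2
    rw [Nat.cast_sub hn] at h2
    exact h2
  have h3 : (n : ℝ) ^ n = n ^ s * n ^ (n - s) := by
    rw [← pow_add]; congr 1; omega
  rw [h3] at h1
  have h4 : (n.choose s : ℝ) * ((s : ℝ) ^ s / n ^ s * (((n : ℝ) - s) ^ (n - s) / n ^ (n - s))) *
      (n + 1) = ((n + 1) * ((n.choose s : ℝ) * (s : ℝ) ^ s * ((n : ℝ) - s) ^ (n - s))) /
        (n ^ s * n ^ (n - s)) := by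
    field_simp
  rw [h4, one_le_div (by positivity)]
  exact h1

/-- The main count. -/
theorem key_single {n s : ℕ} (hs : 1 ≤ s) (hn : s ≤ n) (S : Finset ℕ)
    (hS : S ⊆ Finset.range (12 * n ^ 2)) :
    1 / (3 * ((n : ℝ) + 1) * G n s) * ((Finset.range (12 * n ^ 2)).powersetCard n).card ≤
      ((((Finset.range (12 * n ^ 2)).powersetCard n).filter
        fun E => ((E ∩ S).card = 0 ∨ s ≤ (E ∩ S).card)).card : ℝ) := by
  have hs0 : (1 : ℝ) ≤ s := by exact_mod_cast hs
  have hn1 : 1 ≤ n := by omega
  have hn0 : (1 : ℝ) ≤ n := by exact_mod_cast hn1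
  have hsn : (s : ℝ) ≤ n := by exact_mod_cast hn
  have hy := yy_pos hs hn
  have hy1 := yy_le_one hs hn
  have hy2 := le_yy hs hn
  have hG : G n s = (1 + yy n s) ^ n := rfl
  have hmode := mode_real hs hn
  rw [hG]
  set y := yy n s with hydef
  set N := 12 * n ^ 2 with hN
  have hNr : (N : ℝ) = 12 * n ^ 2 := by rw [hN]; push_cast; ring
  have hNn : n < N := by rw [hN]; nlinarith
  set p := y / (1 + y) with hp
  have hp0 : 0 < p := by positivity
  have hp1 : 1 - p = 1 / (1 + y) := by rw [hp]; field_simp; ring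
  have hp2 : p ≤ 1 / 2 := by
    rw [hp, div_le_div_iff₀ (by positivity) (by norm_num)]; linarith
  have hpN : 2 * (s : ℝ) * n ≤ p * N := by
    have h1 : y / 2 ≤ p := by
      rw [hp]; apply div_le_div_of_nonneg_left hy.le (by positivity); linarith
    have h2 : (s : ℝ) / (3 * n) ≤ y := by
      have h3 : (1 : ℝ) / 3 ≤ Real.exp (-1) := by
        rw [Real.exp_neg, one_div]
        apply inv_anti₀ (Real.exp_pos _)
        have := Real.exp_one_lt_d9; linarith
      calc (s : ℝ) / (3 * n) = s / n * (1 / 3) := by field_simp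
        _ ≤ s / n * Real.exp (-1) := mul_le_mul_of_nonneg_left h3 (by positivity)
        _ ≤ y := hy2
    have h4 : (s : ℝ) / (6 * n) ≤ p := by
      have : (s : ℝ) / (6 * n) = s / (3 * n) / 2 := by field_simp; norm_num
      linarith
    calc 2 * (s : ℝ) * n = s / (6 * n) * (12 * n ^ 2) := by field_simp; norm_num
      _ ≤ p * N := by
          rw [hNr]; exact mul_le_mul_of_nonneg_right h4 (by positivity)
  have hcardV : (Finset.range N).card = N := Finset.card_range N
  have hkN : S.card ≤ N := by
    have := Finset.card_le_card hS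
    rwa [hcardV] at this
  rw [Finset.card_powersetCard, hcardV]
  have hGpos : 0 < (1 + y) ^ n := by positivity
  have hCpos : (0 : ℝ) ≤ N.choose n := by positivity
  by_cases hk : (S.card : ℝ) < p * N
  · -- many sets disjoint from `S`
    have hkn : n + S.card ≤ N := by
      have h1 : (S.card : ℝ) < 1 / 2 * N := lt_of_lt_of_le hk
        (mul_le_mul_of_nonneg_right hp2 (by positivity))
      have h2 : (n : ℝ) + S.card ≤ N := by
        rw [hNr] at h1 ⊢; nlinarith
      exact_mod_cast h2
    have h1 := choose_ge hkn hNn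
    have h2 := count_inter (Finset.range N) S hS n 0 (Nat.zero_le _)
    rw [Nat.choose_zero_right, one_mul, hcardV, Nat.sub_zero] at h2
    have h3 : (((Finset.range N).powersetCard n).filter fun E => (E ∩ S).card = 0).card ≤
        (((Finset.range N).powersetCard n).filter
          fun E => ((E ∩ S).card = 0 ∨ s ≤ (E ∩ S).card)).card := by
      apply Finset.card_le_card
      intro E hE
      rw [Finset.mem_filter] at hE ⊢
      exact ⟨hE.1, Or.inl hE.2⟩
    have h4 : ((N - S.card).choose n : ℝ) ≤ ((((Finset.range N).powersetCard n).filter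
        fun E => ((E ∩ S).card = 0 ∨ s ≤ (E ∩ S).card)).card : ℝ) := by
      exact_mod_cast h2.trans h3
    refine le_trans ?_ (h1.trans h4)
    apply mul_le_mul_of_nonneg_right _ hCpos
    have hNn' : (0 : ℝ) < (N : ℝ) - n := by
      have : (n : ℝ) < N := by exact_mod_cast hNn
      linarith
    have h5 : 1 / (1 + y) * (1 - 1 / (2 * n)) ≤ 1 - (S.card : ℝ) / (N - n) := by
      have h6 : (S.card : ℝ) / (N - n) ≤ p * N / (N - n) :=
        div_le_div_of_nonneg_right hk.le hNn'.le
      have h7 : p * N / (N - n) = p + p * n / (N - n) := by field_simp; ring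
      have h8 : p * n / ((N : ℝ) - n) ≤ (1 - p) * (1 / (2 * n)) := by
        have h9 : p ≤ 1 - p := by linarith
        have h10 : (n : ℝ) / (N - n) ≤ 1 / (2 * n) := by
          rw [div_le_div_iff₀ hNn' (by positivity), hNr]; nlinarith
        calc p * n / ((N : ℝ) - n) = p * (n / (N - n)) := by ring
          _ ≤ (1 - p) * (1 / (2 * n)) := by
              apply mul_le_mul h9 h10 (by positivity) (by linarith)
      have h11 : 1 / (1 + y) * (1 - 1 / (2 * (n : ℝ))) = (1 - p) - (1 - p) * (1 / (2 * n)) := by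
        rw [hp1]; ring
      rw [h11]; linarith
    have h12 : (0 : ℝ) ≤ 1 - 1 / (2 * n) := by
      rw [sub_nonneg, div_le_one (by positivity)]; linarith
    calc 1 / (3 * ((n : ℝ) + 1) * (1 + y) ^ n) ≤ 1 / (2 * (1 + y) ^ n) := by
          apply one_div_le_one_div_of_le (by positivity)
          apply mul_le_mul_of_nonneg_right _ hGpos.le
          nlinarith
      _ = (1 / (1 + y)) ^ n * (1 / 2) := by rw [div_pow, one_pow]; field_simp
      _ ≤ (1 / (1 + y)) ^ n * (1 - 1 / (2 * n)) ^ n := by
          apply mul_le_mul_of_nonneg_left _ (by positivity)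
          have h13 := one_add_mul_le_pow (a := -(1 / (2 * (n : ℝ)))) (by linarith) n
          have h14 : (1 : ℝ) + n * -(1 / (2 * (n : ℝ))) = 1 / 2 := by field_simp; norm_num
          rw [h14] at h13
          rw [sub_eq_add_neg]; exact h13
      _ = (1 / (1 + y) * (1 - 1 / (2 * n))) ^ n := by rw [mul_pow]
      _ ≤ (1 - (S.card : ℝ) / (N - n)) ^ n := by
          apply pow_le_pow_left₀ _ h5
          positivity
  · -- many sets meeting `S` in at least `s` points
    push Not at hk
    obtain ⟨S', hS', hc'⟩ := Finset.exists_subset_card_eq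
      (show ⌈p * N⌉₊ ≤ S.card from Nat.ceil_le.2 hk)
    set k := ⌈p * N⌉₊ with hkdef
    have hk1 : p * N ≤ k := Nat.le_ceil _
    have hk2 : (k : ℝ) < p * N + 1 := Nat.ceil_lt_add_one (by positivity)
    have h2 := count_inter (Finset.range N) S' (hS'.trans hS) n s hn
    rw [hcardV, hc'] at h2
    have h3 : (((Finset.range N).powersetCard n).filter fun E => (E ∩ S').card = s).card ≤
        (((Finset.range N).powersetCard n).filter
          fun E => ((E ∩ S).card = 0 ∨ s ≤ (E ∩ S).card)).card := by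
      apply Finset.card_le_card
      intro E hE
      rw [Finset.mem_filter] at hE ⊢
      refine ⟨hE.1, Or.inr ?_⟩
      rw [← hE.2]
      exact Finset.card_le_card (Finset.inter_subset_inter_left hS')
    have h4 : (k.choose s : ℝ) * ((N - k).choose (n - s) : ℝ) ≤
        ((((Finset.range N).powersetCard n).filter
        fun E => ((E ∩ S).card = 0 ∨ s ≤ (E ∩ S).card)).card : ℝ) := by
      exact_mod_cast h2.trans h3
    refine le_trans ?_ h4
    have hkn : k + n ≤ N := by
      have h1 : p * (N : ℝ) ≤ 1 / 2 * N := mul_le_mul_of_nonneg_right hp2 (by positivity)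
      have h5 : (k : ℝ) + n ≤ N := by
        rw [hNr] at h1 hk2 ⊢; nlinarith
      exact_mod_cast h5
    have h5 := choose_mul_le (i := s) hn hkn
    have h6 : (N.choose n : ℝ) * (n.descFactorial s : ℝ) * ((N : ℝ) - k - n) ^ (n - s) ≤
        ((N - k).choose (n - s) : ℝ) * (N : ℝ) ^ n := by
      have h7 : ((N.choose n * n.descFactorial s * (N - k - n) ^ (n - s) : ℕ) : ℝ) ≤
        ((N - k).choose (n - s) * N ^ n : ℕ) := by exact_mod_cast h5
      push_cast at h7
      rw [Nat.cast_sub (by omega), Nat.cast_sub (by omega)] at h7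
      exact h7
    have h8 : ((k : ℝ) - s) ^ s ≤ (s.factorial : ℝ) * (k.choose s : ℝ) := by
      have h9 := Nat.pow_sub_le_descFactorial k s
      rw [Nat.descFactorial_eq_factorial_mul_choose] at h9
      have hks : s ≤ k := by
        have : (s : ℝ) ≤ k := by nlinarith
        exact_mod_cast this
      have h10 : (((k + 1 - s) ^ s : ℕ) : ℝ) ≤ (s.factorial * k.choose s : ℕ) := by
        exact_mod_cast h9
      push_cast at h10
      rw [Nat.cast_sub (by omega)] at h10
      push_cast at h10
      refine le_trans ?_ h10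
      apply pow_le_pow_left₀
      · have : (s : ℝ) ≤ k := by exact_mod_cast hks
        linarith
      · linarith
    -- first factor
    have h11 : (p * N) ^ s * (1 / 2) ≤ ((k : ℝ) - s) ^ s := by
      have h12 : p * N * (1 - 1 / (2 * n)) ≤ (k : ℝ) - s := by
        have h13 : (s : ℝ) ≤ p * N * (1 / (2 * n)) := by
          rw [mul_one_div, le_div_iff₀ (by positivity)]; linarith
        have : p * N * (1 - 1 / (2 * (n : ℝ))) = p * N - p * N * (1 / (2 * n)) := by ring
        linarith
      have h14 : (0 : ℝ) ≤ 1 - 1 / (2 * n) := by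
        rw [sub_nonneg, div_le_one (by positivity)]; linarith
      calc (p * N) ^ s * (1 / 2) ≤ (p * N) ^ s * (1 - 1 / (2 * n)) ^ s := by
            apply mul_le_mul_of_nonneg_left _ (by positivity)
            have h15 := one_add_mul_le_pow (a := -(1 / (2 * (n : ℝ)))) (by linarith) s
            have h16 : (1 : ℝ) / 2 ≤ 1 + s * -(1 / (2 * (n : ℝ))) := by
              have h17 : (s : ℝ) * (1 / (2 * n)) ≤ 1 / 2 := by
                rw [mul_one_div, div_le_div_iff₀ (by positivity) (by norm_num)]; linarith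
              linarith
            rw [sub_eq_add_neg]; linarith
        _ = (p * N * (1 - 1 / (2 * n))) ^ s := by rw [← mul_pow]
        _ ≤ ((k : ℝ) - s) ^ s := pow_le_pow_left₀ (by positivity) h12 _
    -- second factor
    have h21 : ((1 - p) * N) ^ (n - s) * (2 / 3) ≤ ((N : ℝ) - k - n) ^ (n - s) := by
      have hq : 0 < 1 - p := by linarith
      have h22 : (1 - p) * N * (1 - 1 / (3 * n)) ≤ (N : ℝ) - k - n := by
        have h23 : (n : ℝ) + 1 ≤ (1 - p) * N * (1 / (3 * n)) := by
          rw [mul_one_div, le_div_iff₀ (by positivity), hNr]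
          nlinarith
        have : (1 - p) * N * (1 - 1 / (3 * (n : ℝ))) = N - p * N - (1 - p) * N * (1 / (3 * n)) := by
          ring
        linarith
      have h14 : (0 : ℝ) ≤ 1 - 1 / (3 * n) := by
        rw [sub_nonneg, div_le_one (by positivity)]; linarith
      calc ((1 - p) * N) ^ (n - s) * (2 / 3) ≤
            ((1 - p) * N) ^ (n - s) * (1 - 1 / (3 * n)) ^ (n - s) := by
            apply mul_le_mul_of_nonneg_left _ (by positivity)
            have h15 := one_add_mul_le_pow (a := -(1 / (3 * (n : ℝ)))) (by linarith) (n - s)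
            have h16 : (2 : ℝ) / 3 ≤ 1 + ((n - s : ℕ) : ℝ) * -(1 / (3 * (n : ℝ))) := by
              have h18 : ((n - s : ℕ) : ℝ) ≤ n := by exact_mod_cast Nat.sub_le n s
              have h17 : ((n - s : ℕ) : ℝ) * (1 / (3 * n)) ≤ 1 / 3 := by
                rw [mul_one_div, div_le_div_iff₀ (by positivity) (by norm_num)]; linarith
              linarith
            rw [sub_eq_add_neg]; linarith
        _ = ((1 - p) * N * (1 - 1 / (3 * n))) ^ (n - s) := by rw [← mul_pow]
        _ ≤ ((N : ℝ) - k - n) ^ (n - s) := pow_le_pow_left₀ (by positivity) h22 _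
    -- assembly
    have hNpos : (0 : ℝ) < (N : ℝ) ^ n := by
      have : (0 : ℝ) < N := by rw [hNr]; positivity
      positivity
    have hsf : (0 : ℝ) < (s.factorial : ℝ) := by exact_mod_cast s.factorial_pos
    have hdesc : (n.descFactorial s : ℝ) = (s.factorial : ℝ) * (n.choose s : ℝ) := by
      rw [Nat.descFactorial_eq_factorial_mul_choose]; push_cast; ring
    rw [hdesc] at h6
    have hpp : (p * N) ^ s * ((1 - p) * N) ^ (n - s) = y ^ s / (1 + y) ^ n * (N : ℝ) ^ n := by
      rw [hp1, hp, mul_pow, mul_pow, div_pow, div_pow, one_pow]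
      have e1 : (N : ℝ) ^ n = N ^ s * N ^ (n - s) := by rw [← pow_add]; congr 1; omega
      have e2 : (1 + y) ^ n = (1 + y) ^ s * (1 + y) ^ (n - s) := by
        rw [← pow_add]; congr 1; omega
      rw [e1, e2]
      field_simp
    have hfin : (N.choose n : ℝ) * ((n.choose s : ℝ) * y ^ s) / (3 * (1 + y) ^ n) *
        ((s.factorial : ℝ) * (N : ℝ) ^ n) ≤
        ((k.choose s : ℝ) * ((N - k).choose (n - s) : ℝ)) * ((s.factorial : ℝ) * (N : ℝ) ^ n) := by
      have e3 : (N.choose n : ℝ) * ((n.choose s : ℝ) * y ^ s) / (3 * (1 + y) ^ n) *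
        ((s.factorial : ℝ) * (N : ℝ) ^ n) = ((N.choose n : ℝ) * ((s.factorial : ℝ) *
          (n.choose s : ℝ))) * ((p * N) ^ s * (1 / 2)) * (((1 - p) * N) ^ (n - s) * (2 / 3)) := by
        have e4 : ((N.choose n : ℝ) * ((s.factorial : ℝ) * (n.choose s : ℝ))) *
            ((p * N) ^ s * (1 / 2)) * (((1 - p) * N) ^ (n - s) * (2 / 3)) =
            ((N.choose n : ℝ) * ((s.factorial : ℝ) * (n.choose s : ℝ))) * (1 / 3) *
            ((p * N) ^ s * ((1 - p) * N) ^ (n - s)) := by ring
        rw [e4, hpp]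
        field_simp
      rw [e3]
      have hq : 0 < 1 - p := by linarith
      calc ((N.choose n : ℝ) * ((s.factorial : ℝ) * (n.choose s : ℝ))) *
            ((p * N) ^ s * (1 / 2)) * (((1 - p) * N) ^ (n - s) * (2 / 3))
          ≤ ((N.choose n : ℝ) * ((s.factorial : ℝ) * (n.choose s : ℝ))) *
            ((k : ℝ) - s) ^ s * (((N : ℝ) - k - n) ^ (n - s)) := by
            apply mul_le_mul _ h21 (by positivity)
            · have : 0 ≤ ((k : ℝ) - s) ^ s := le_trans (by positivity) h11
              positivity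
            · exact mul_le_mul_of_nonneg_left h11 (by positivity)
        _ = ((k : ℝ) - s) ^ s * ((N.choose n : ℝ) * ((s.factorial : ℝ) * (n.choose s : ℝ)) *
            ((N : ℝ) - k - n) ^ (n - s)) := by ring
        _ ≤ ((s.factorial : ℝ) * (k.choose s : ℝ)) *
            (((N - k).choose (n - s) : ℝ) * (N : ℝ) ^ n) := by
            apply mul_le_mul h8 h6 _ (by positivity)
            have : 0 ≤ ((N : ℝ) - k - n) ^ (n - s) := le_trans (by positivity) h21
            positivity
        _ = _ := by ring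
    have hfin2 := le_of_mul_le_mul_right hfin (by positivity)
    refine le_trans ?_ hfin2
    rw [div_mul_eq_mul_div, one_mul, div_le_div_iff₀ (by positivity) (by positivity)]
    have h30 : 1 ≤ ((n.choose s : ℝ) * y ^ s) * (n + 1) := by
      rwa [div_le_iff₀ (by positivity)] at hmode
    have h31 : 0 ≤ (N.choose n : ℝ) * (3 * (1 + y) ^ n) := by positivity
    calc (N.choose n : ℝ) * (3 * (1 + y) ^ n)
        = (N.choose n : ℝ) * (3 * (1 + y) ^ n) * 1 := by ring
      _ ≤ (N.choose n : ℝ) * (3 * (1 + y) ^ n) * (((n.choose s : ℝ) * y ^ s) * (n + 1)) :=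
          mul_le_mul_of_nonneg_left h30 h31
      _ = _ := by ring

/-- A family of at most `144 n ^ 3 G` sets without property `B(s)`. -/
theorem single {n s : ℕ} (hs : 1 ≤ s) (hn : s ≤ n) :
    ∃ F : Finset (Finset ℕ), (∀ E ∈ F, E.card = n) ∧ ¬ PropertyB F s ∧
      (F.card : ℝ) ≤ 144 * n ^ 3 * G n s := by
  have hn1 : 1 ≤ n := by omega
  have hn0 : (1 : ℝ) ≤ n := by exact_mod_cast hn1
  have hG := G_pos hs hn
  have hG1 : 1 ≤ G n s := by
    unfold G
    exact one_le_pow₀ (by linarith [yy_pos hs hn])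
  set N := 12 * n ^ 2 with hN
  have hNn : n < N := by rw [hN]; nlinarith
  have hX : ((Finset.range N).powersetCard n).Nonempty := by
    rw [Finset.powersetCard_nonempty, Finset.card_range]; omega
  obtain ⟨T, hT, hc, hcov⟩ := cover' ((Finset.range N).powerset) ((Finset.range N).powersetCard n)
    hX (fun S E => ((E ∩ S).card = 0 ∨ s ≤ (E ∩ S).card))
    (1 / (3 * ((n : ℝ) + 1) * G n s)) (by positivity)
    (by
      rw [div_le_one (by positivity)]
      nlinarith)
    (fun S hS => key_single hs hn S (Finset.mem_powerset.1 hS)) N (by omega)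
    (by rw [Finset.card_powerset, Finset.card_range])
  refine ⟨T, fun E hE => (Finset.mem_powersetCard.1 (hT hE)).2, ?_, ?_⟩
  · rintro ⟨S, hS⟩
    obtain ⟨E, hE, h⟩ := hcov (S ∩ Finset.range N)
      (Finset.mem_powerset.2 Finset.inter_subset_right)
    have h1 : E ∩ (S ∩ Finset.range N) = E ∩ S := by
      have h2 : E ⊆ Finset.range N := (Finset.mem_powersetCard.1 (hT hE)).1
      ext v
      simp only [Finset.mem_inter]
      constructor
      · rintro ⟨a, b, c⟩; exact ⟨a, b⟩
      · rintro ⟨a, b⟩; exact ⟨a, b, h2 a⟩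
    rw [h1] at h
    have h3 := hS E hE
    omega
  · refine hc.trans ?_
    rw [div_div_eq_mul_div, div_one, hN]
    push_cast
    have h1 : (n : ℝ) + 1 ≤ 2 * n := by linarith
    calc 2 * (12 * (n : ℝ) ^ 2) * (3 * ((n : ℝ) + 1) * G n s)
        = 72 * (n : ℝ) ^ 2 * G n s * ((n : ℝ) + 1) := by ring
      _ ≤ 72 * (n : ℝ) ^ 2 * G n s * (2 * n) := mul_le_mul_of_nonneg_left h1 (by positivity)
      _ = _ := by ring

end Pool.Agent.Y78.PB
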