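import Pool.Agent.Y78.PB.Lower
import Pool.Agent.Y78.PB.Single
import Pool.Agent.Y78.PB.Pairs

/-!
# The growth of `m(n, s)`
-/

set_option autoImplicit false

namespace Pool.Agent.Y78.PB

open Finset

theorem exp_le_G {n s : ℕ} (hs : 1 ≤ s) (hn : s ≤ n) (h : s ^ 2 ≤ n) :
    Real.exp (s * Real.exp (-1)) ≤ 2 * G n s := by
  have hs0 : (1 : ℝ) ≤ s := by exact_mod_cast hs
  have hn0 : (1 : ℝ) ≤ n := by exact_mod_cast (by omega : 1 ≤ n)
  have hsn : (s : ℝ) ^ 2 ≤ n := by exact_mod_cast h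
  have hsn' : (s : ℝ) ≤ n := by exact_mod_cast hn
  have he0 : 0 < Real.exp (-1) := Real.exp_pos _
  have he1 : Real.exp (-1) ≤ 1 / 2 := by
    rw [Real.exp_neg, one_div]
    apply inv_anti₀ (by norm_num)
    have := Real.exp_one_gt_d9; linarith
  set v := (s : ℝ) / n * Real.exp (-1) with hv
  have hv0 : 0 ≤ v := by positivity
  have hv1 : v ≤ 1 := by
    have h1 : (s : ℝ) / n ≤ 1 := by rw [div_le_one (by positivity)]; exact hsn'
    calc v ≤ 1 * (1 / 2) := mul_le_mul h1 he1 he0.le (by norm_num)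
      _ ≤ 1 := by norm_num
  have hnv : n * v = s * Real.exp (-1) := by rw [hv]; field_simp
  have hnv2 : n * v ^ 2 ≤ 1 / 2 := by
    have h1 : n * v ^ 2 = s ^ 2 / n * (Real.exp (-1)) ^ 2 := by rw [hv]; field_simp
    rw [h1]
    have h2 : (s : ℝ) ^ 2 / n ≤ 1 := by rw [div_le_one (by positivity)]; exact hsn
    calc (s : ℝ) ^ 2 / n * (Real.exp (-1)) ^ 2 ≤ 1 * (1 / 2) ^ 2 :=
          mul_le_mul h2 (pow_le_pow_left₀ he0.le he1 2) (by positivity) (by norm_num)
      _ ≤ 1 / 2 := by norm_num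
  have h3 : Real.exp v * (1 - v ^ 2) ≤ 1 + v := by
    have h4 : Real.exp v * (1 - v) ≤ 1 := by
      have h5 := Real.add_one_le_exp (-v)
      calc Real.exp v * (1 - v) ≤ Real.exp v * Real.exp (-v) :=
            mul_le_mul_of_nonneg_left (by linarith) (Real.exp_pos _).le
        _ = 1 := by rw [← Real.exp_add]; simp
    nlinarith
  have h6 : 0 ≤ 1 - v ^ 2 := by nlinarith
  have h7 : Real.exp (n * v) * (1 - n * v ^ 2) ≤ (1 + v) ^ n := by
    calc Real.exp (n * v) * (1 - n * v ^ 2) ≤ Real.exp (n * v) * (1 - v ^ 2) ^ n := by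
          apply mul_le_mul_of_nonneg_left _ (Real.exp_pos _).le
          have h4 := one_add_mul_le_pow (a := -(v ^ 2)) (by nlinarith) n
          rw [sub_eq_add_neg, sub_eq_add_neg]; linarith
      _ = (Real.exp v * (1 - v ^ 2)) ^ n := by
          rw [Real.exp_nat_mul v n, ← mul_pow]
      _ ≤ (1 + v) ^ n := pow_le_pow_left₀ (by positivity) h3 _
  have h8 : (1 + v) ^ n ≤ G n s := by
    unfold G
    apply pow_le_pow_left₀ (by positivity)
    have := le_yy hs hn
    linarith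
  rw [hnv] at h7
  have h9 : Real.exp (s * Real.exp (-1)) * (1 / 2) ≤
      Real.exp (s * Real.exp (-1)) * (1 - n * v ^ 2) :=
    mul_le_mul_of_nonneg_left (by linarith) (Real.exp_pos _).le
  linarith

/-- A family without property `B(s)`. -/
theorem exists_family {n s : ℕ} (hs : 2 ≤ s) (hn : s ≤ n) :
    ∃ F : Finset (Finset ℕ), (∀ E ∈ F, E.card = n) ∧ ¬ PropertyB F s ∧
      (F.card : ℝ) ≤ 10 ^ 6 * s ^ 12 * G n s := by
  have hs0 : (2 : ℝ) ≤ s := by exact_mod_cast hs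
  have hG := G_pos (by omega : 1 ≤ s) hn
  rcases Nat.lt_or_ge n ((4 * s ^ 2) ^ 2) with h | h
  · obtain ⟨F, h1, h2, h3⟩ := single (by omega : 1 ≤ s) hn
    refine ⟨F, h1, h2, h3.trans ?_⟩
    have h4 : (n : ℝ) ≤ (4 * s ^ 2) ^ 2 := by exact_mod_cast h.le
    calc 144 * (n : ℝ) ^ 3 * G n s ≤ 144 * ((4 * s ^ 2) ^ 2) ^ 3 * G n s := by gcongr
      _ = 589824 * (s : ℝ) ^ 12 * G n s := by ring
      _ ≤ 10 ^ 6 * s ^ 12 * G n s := by
          apply mul_le_mul_of_nonneg_right _ hG.le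
          apply mul_le_mul_of_nonneg_right _ (by positivity)
          norm_num
  · obtain ⟨F, h1, h2, h3⟩ := large hs h
    refine ⟨F, h1, h2, h3.trans ?_⟩
    have h5 : s ^ 2 ≤ n := by
      refine le_trans ?_ h
      have : 1 ≤ s ^ 2 := Nat.one_le_pow _ _ (by omega)
      nlinarith
    have h4 := exp_le_G (by omega : 1 ≤ s) hn h5
    calc 15000 * (s : ℝ) ^ 5 * Real.exp (s * Real.exp (-1))
        ≤ 15000 * (s : ℝ) ^ 5 * (2 * G n s) := by gcongr
      _ = 30000 * (s : ℝ) ^ 5 * G n s := by ring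
      _ ≤ 10 ^ 6 * s ^ 12 * G n s := by
          apply mul_le_mul_of_nonneg_right _ hG.le
          apply mul_le_mul (by norm_num) _ (by positivity) (by norm_num)
          exact pow_le_pow_right₀ (by linarith) (by norm_num)

theorem minEdges_mem {n s : ℕ} (hs : 2 ≤ s) (hn : s ≤ n) :
    ∃ F : Finset (Finset ℕ), F.card = minEdges n s ∧ (∀ E ∈ F, E.card = n) ∧
      ¬ PropertyB F s := by
  have h : (minEdges n s) ∈ {k | ∃ F : Finset (Finset ℕ), F.card = k ∧ (∀ E ∈ F, E.card = n) ∧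
      ¬ PropertyB F s} := by
    apply Nat.sInf_mem
    obtain ⟨F, h1, h2, -⟩ := exists_family hs hn
    exact ⟨F.card, F, rfl, h1, h2⟩
  exact h

/-- The theorem. -/
theorem minEdges_bounds {n s : ℕ} (hs : 2 ≤ s) (hn : s ≤ n) :
    1 / 2 * G n s ≤ (minEdges n s : ℝ) ∧ (minEdges n s : ℝ) ≤ 10 ^ 6 * s ^ 12 * G n s := by
  constructor
  · obtain ⟨F, h1, h2, h3⟩ := minEdges_mem hs hn
    rw [← h1]
    by_contra hcon
    push Not at hcon
    exact h3 (propertyB_of_lt (by omega : 1 ≤ s) hn F h2 (by linarith))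
  · obtain ⟨F, h1, h2, h3⟩ := exists_family hs hn
    refine le_trans ?_ h3
    have h4 : minEdges n s ≤ F.card := Nat.sInf_le ⟨F, rfl, h1, h2⟩
    exact_mod_cast h4

end Pool.Agent.Y78.PB
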