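import Pool.Agent.Y78.PB.Defs

/-!
# The lower bound for the number of edges: a random set
-/

set_option autoImplicit false

namespace Pool.Agent.Y78.PB

open Finset

variable {α : Type*} [DecidableEq α]

theorem sum_pow (V E : Finset α) (hE : E ⊆ V) (y z : ℝ) :
    ∑ S ∈ V.powerset, y ^ S.card * z ^ (E ∩ S).card =
      (1 + y * z) ^ E.card * (1 + y) ^ (V.card - E.card) := by
  have h := Finset.prod_one_add (s := V) (f := fun v => y * if v ∈ E then z else 1)
  have h1 : ∏ v ∈ V, (1 + y * if v ∈ E then z else 1) =
      (1 + y * z) ^ E.card * (1 + y) ^ (V.card - E.card) := by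
    rw [← Finset.prod_sdiff hE, mul_comm]
    congr 1
    · rw [Finset.prod_congr rfl (g := fun _ => 1 + y * z)]
      · simp
      · intro v hv
        rw [if_pos hv]
    · rw [Finset.prod_congr rfl (g := fun _ => 1 + y)]
      · rw [Finset.prod_const, Finset.card_sdiff_of_subset hE]
      · intro v hv
        rw [if_neg (Finset.mem_sdiff.1 hv).2, mul_one]
  rw [← h1, h]
  apply Finset.sum_congr rfl
  intro S _
  rw [Finset.prod_mul_distrib, Finset.prod_const]
  congr 1
  rw [Finset.prod_ite, Finset.prod_const, Finset.prod_const_one, mul_one]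
  congr 2
  ext v
  simp [and_comm]

/-- The weight of the sets that meet `E` in no or in at least `s` points. -/
theorem weight_le {n s : ℕ} (hs : 1 ≤ s) (hn : s ≤ n) (V E : Finset α) (hE : E ⊆ V)
    (hc : E.card = n) :
    ∑ S ∈ V.powerset with ((E ∩ S).card = 0 ∨ s ≤ (E ∩ S).card), yy n s ^ S.card ≤
      2 * (1 + yy n s) ^ (V.card - n) := by
  have hs0 : (0 : ℝ) < s := by exact_mod_cast hs
  have hn0 : (0 : ℝ) < n := by exact_mod_cast (by omega : 0 < n)
  have hy := yy_pos hs hn
  set y := yy n s with hydef
  -- the sets disjoint from `E`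
  have h0 : ∑ S ∈ V.powerset with (E ∩ S).card = 0, y ^ S.card = (1 + y) ^ (V.card - n) := by
    have h := sum_pow V E hE y 0
    rw [mul_zero, add_zero, one_pow, one_mul, hc] at h
    rw [← h, Finset.sum_filter]
    apply Finset.sum_congr rfl
    intro S _
    by_cases h1 : (E ∩ S).card = 0
    · rw [if_pos h1, h1]; simp
    · rw [if_neg h1, zero_pow h1, mul_zero]
  -- the sets meeting `E` in many points
  have h1 : ∑ S ∈ V.powerset with s ≤ (E ∩ S).card, y ^ S.card ≤ (1 + y) ^ (V.card - n) := by
    rcases Nat.lt_or_ge s n with hlt | hge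
    · have hsn : (s : ℝ) < n := by exact_mod_cast hlt
      have hd : (0 : ℝ) < (n : ℝ) - s := by linarith
      set z : ℝ := s / ((n - s) * y) with hz
      have hz0 : 0 < z := by positivity
      have hz1 : 1 ≤ z := by
        rw [hz, one_le_div (by positivity)]
        have h2 := yy_le hs hn
        rw [← hydef] at h2
        calc ((n : ℝ) - s) * y ≤ ((n : ℝ) - s) * (s / n) := mul_le_mul_of_nonneg_left h2 hd.le
          _ = s * ((n - s) / n) := by ring
          _ ≤ s * 1 := by
              apply mul_le_mul_of_nonneg_left _ hs0.le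
              rw [div_le_one hn0]; linarith
          _ = s := mul_one _
      have h := sum_pow V E hE y z
      have h3 : ∑ S ∈ V.powerset with s ≤ (E ∩ S).card, y ^ S.card ≤
          ∑ S ∈ V.powerset, y ^ S.card * z ^ (E ∩ S).card / z ^ s := by
        rw [Finset.sum_filter]
        apply Finset.sum_le_sum
        intro S _
        by_cases h4 : s ≤ (E ∩ S).card
        · rw [if_pos h4, le_div_iff₀ (by positivity)]
          apply mul_le_mul_of_nonneg_left _ (by positivity)
          exact pow_le_pow_right₀ hz1 h4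
        · rw [if_neg h4]; positivity
      refine h3.trans ?_
      rw [← Finset.sum_div, h, hc, div_le_iff₀ (by positivity), mul_comm]
      apply mul_le_mul_of_nonneg_left _ (by positivity)
      -- `(1 + y z) ^ n = z ^ s`
      apply le_of_eq
      have h5 : 1 + y * z = n / (n - s) := by
        rw [hz]; field_simp; ring
      have h6 : y ^ s = ((s : ℝ) / n) ^ s * (((n : ℝ) - s) / n) ^ (n - s) := yy_pow hs hn
      rw [h5, hz, div_pow, div_pow, mul_pow, h6, div_pow, div_pow]
      have h7 : (n : ℝ) ^ n = n ^ s * n ^ (n - s) := by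
        rw [← pow_add]; congr 1; omega
      have h8 : ((n : ℝ) - s) ^ n = (n - s) ^ s * (n - s) ^ (n - s) := by
        rw [← pow_add]; congr 1; omega
      rw [h7, h8]
      have h9 : ((n : ℝ) - s) ≠ 0 := hd.ne'
      field_simp
    · have h2 : n = s := le_antisymm hge hn
      have hy1 : y = 1 := by
        rw [hydef, h2]; unfold yy; rw [div_self hs0.ne']; simp
      rw [hy1]
      simp only [one_pow, Finset.sum_const, nsmul_eq_mul, mul_one]
      have h3 : (V.powerset.filter fun S => s ≤ (E ∩ S).card) ⊆ Finset.Icc E V := by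
        intro S hS
        rw [Finset.mem_filter, Finset.mem_powerset] at hS
        rw [Finset.mem_Icc]
        refine ⟨?_, hS.1⟩
        have h4 : E ∩ S = E := by
          apply Finset.eq_of_subset_of_card_le Finset.inter_subset_left
          omega
        intro v hv
        rw [← h4] at hv
        exact (Finset.mem_inter.1 hv).2
      have h4 := Finset.card_le_card h3
      rw [Finset.card_Icc_finset hE, hc] at h4
      have h5 : ((1 : ℝ) + 1) ^ (V.card - n) = ((2 ^ (V.card - n) : ℕ) : ℝ) := by
        push_cast; norm_num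
      rw [h5]
      exact_mod_cast h4
  have h2 : (V.powerset.filter fun S => ((E ∩ S).card = 0 ∨ s ≤ (E ∩ S).card)) =
      (V.powerset.filter fun S => (E ∩ S).card = 0) ∪
        (V.powerset.filter fun S => s ≤ (E ∩ S).card) := Finset.filter_or _ _ _
  rw [h2, two_mul]
  calc ∑ S ∈ (V.powerset.filter fun S => (E ∩ S).card = 0) ∪
        (V.powerset.filter fun S => s ≤ (E ∩ S).card), y ^ S.card
      ≤ ∑ S ∈ (V.powerset.filter fun S => (E ∩ S).card = 0) ∪
        (V.powerset.filter fun S => s ≤ (E ∩ S).card), y ^ S.card +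
        ∑ S ∈ (V.powerset.filter fun S => (E ∩ S).card = 0) ∩
        (V.powerset.filter fun S => s ≤ (E ∩ S).card), y ^ S.card := by
          have : 0 ≤ ∑ S ∈ (V.powerset.filter fun S => (E ∩ S).card = 0) ∩
            (V.powerset.filter fun S => s ≤ (E ∩ S).card), y ^ S.card :=
              Finset.sum_nonneg fun S _ => by positivity
          linarith
    _ = _ := Finset.sum_union_inter
    _ ≤ _ := add_le_add h0.le h1

/-- Families of fewer than `G / 2` sets of size `n` have property `B(s)`. -/
theorem propertyB_of_lt {n s : ℕ} (hs : 1 ≤ s) (hn : s ≤ n) (F : Finset (Finset α))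
    (hF : ∀ E ∈ F, E.card = n) (h : (F.card : ℝ) < G n s / 2) : PropertyB F s := by
  by_contra hcon
  unfold PropertyB at hcon
  push Not at hcon
  have hy := yy_pos hs hn
  set y := yy n s with hydef
  set V := F.biUnion id with hV
  have hsub : ∀ E ∈ F, E ⊆ V := fun E hE => Finset.subset_biUnion_of_mem id hE
  have hbad : ∀ S : Finset α, ∃ E ∈ F, (E ∩ S).card = 0 ∨ s ≤ (E ∩ S).card := by
    intro S
    obtain ⟨E, hE, h1⟩ := hcon S
    refine ⟨E, hE, ?_⟩
    rcases Nat.eq_zero_or_pos (E ∩ S).card with h2 | h2
    · exact Or.inl h2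
    · exact Or.inr (h1 h2)
  -- `F` is nonempty
  obtain ⟨E₀, hE₀, -⟩ := hbad ∅
  have hVn : n ≤ V.card := by
    rw [← hF E₀ hE₀]; exact Finset.card_le_card (hsub E₀ hE₀)
  have htot : (1 + y) ^ V.card = ∑ S ∈ V.powerset, y ^ S.card := by
    have h1 := sum_pow V ∅ (Finset.empty_subset _) y 1
    simp at h1
    exact h1.symm
  have hle : (1 + y) ^ V.card ≤ F.card * (2 * (1 + y) ^ (V.card - n)) := by
    rw [htot]
    calc ∑ S ∈ V.powerset, y ^ S.card
        ≤ ∑ S ∈ V.powerset, ∑ E ∈ F,
            if ((E ∩ S).card = 0 ∨ s ≤ (E ∩ S).card) then y ^ S.card else 0 := by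
          apply Finset.sum_le_sum
          intro S _
          obtain ⟨E, hE, h1⟩ := hbad S
          have h2 : (if ((E ∩ S).card = 0 ∨ s ≤ (E ∩ S).card) then y ^ S.card else 0) ≤
              ∑ E ∈ F, if ((E ∩ S).card = 0 ∨ s ≤ (E ∩ S).card) then y ^ S.card else 0 := by
            apply Finset.single_le_sum (f := fun E => if ((E ∩ S).card = 0 ∨ s ≤ (E ∩ S).card)
              then y ^ S.card else 0) _ hE
            intro E' _
            split_ifs
            · positivity
            · exact le_rfl
          rw [if_pos h1] at h2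
          exact h2
      _ = ∑ E ∈ F, ∑ S ∈ V.powerset with ((E ∩ S).card = 0 ∨ s ≤ (E ∩ S).card),
            y ^ S.card := by
          rw [Finset.sum_comm]
          apply Finset.sum_congr rfl
          intro E _
          rw [Finset.sum_filter]
      _ ≤ ∑ E ∈ F, 2 * (1 + y) ^ (V.card - n) := by
          apply Finset.sum_le_sum
          intro E hE
          exact weight_le hs hn V E (hsub E hE) (hF E hE)
      _ = _ := by rw [Finset.sum_const, nsmul_eq_mul]
  have h2 : (1 + y) ^ V.card = (1 + y) ^ n * (1 + y) ^ (V.card - n) := by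
    rw [← pow_add]; congr 1; omega
  rw [h2] at hle
  have h3 : 0 < (1 + y) ^ (V.card - n) := by positivity
  have h4 : (1 + y) ^ n ≤ 2 * F.card := by
    by_contra h5
    push Not at h5
    have h6 := mul_lt_mul_of_pos_right h5 h3
    linarith
  unfold G at h
  rw [← hydef] at h
  linarith

end Pool.Agent.Y78.PB
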