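import Pool.Agent.Y78.PB.Defs
import Pool.Agent.Y78.PB.Cover

/-!
# The upper bound for large `n`: pairs of sets
-/

set_option autoImplicit false

namespace Pool.Agent.Y78.PB

open Finset

theorem choose_ge2 {N a b k i s : ℕ} (hab : a ≤ b) (hs : s ≤ a) (hi : i ≤ s) (hk : k + b ≤ N)
    (hN : 0 < N) :
    (N.choose a : ℝ) * (((a : ℝ) - s) / N) ^ i * (1 - ((k : ℝ) + b) / N) ^ b ≤
      ((N - k).choose (a - i) : ℝ) := by
  have hN0 : (0 : ℝ) < N := by exact_mod_cast hN
  have hsa : (s : ℝ) ≤ a := by exact_mod_cast hs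
  have hkb : (k : ℝ) + b ≤ N := by exact_mod_cast hk
  have hab' : (a : ℝ) ≤ b := by exact_mod_cast hab
  have hv0 : 0 ≤ 1 - ((k : ℝ) + b) / N := by
    rw [sub_nonneg, div_le_one hN0]; exact hkb
  have hv1 : 1 - ((k : ℝ) + b) / N ≤ 1 := by
    have : 0 ≤ ((k : ℝ) + b) / N := by positivity
    linarith
  set v := 1 - ((k : ℝ) + b) / N with hv
  have h5 := choose_mul_le (N := N) (n := a) (k := k) (i := i) (by omega) (by omega)
  have h6 : (N.choose a : ℝ) * (a.descFactorial i : ℝ) * ((N : ℝ) - k - a) ^ (a - i) ≤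
      ((N - k).choose (a - i) : ℝ) * (N : ℝ) ^ a := by
    have h7 : ((N.choose a * a.descFactorial i * (N - k - a) ^ (a - i) : ℕ) : ℝ) ≤
      ((N - k).choose (a - i) * N ^ a : ℕ) := by exact_mod_cast h5
    push_cast at h7
    rw [Nat.cast_sub (by omega), Nat.cast_sub (by omega)] at h7
    exact h7
  have h8 : ((a : ℝ) - s) ^ i ≤ (a.descFactorial i : ℝ) := by
    have h9 : (((a + 1 - i) ^ i : ℕ) : ℝ) ≤ (a.descFactorial i : ℕ) := by
      exact_mod_cast Nat.pow_sub_le_descFactorial a i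
    push_cast at h9
    rw [Nat.cast_sub (by omega)] at h9
    push_cast at h9
    refine le_trans ?_ h9
    have : (i : ℝ) ≤ s := by exact_mod_cast hi
    apply pow_le_pow_left₀ <;> linarith
  have h9 : (N : ℝ) ^ (a - i) * v ^ b ≤ ((N : ℝ) - k - a) ^ (a - i) := by
    calc (N : ℝ) ^ (a - i) * v ^ b ≤ (N : ℝ) ^ (a - i) * v ^ (a - i) := by
          apply mul_le_mul_of_nonneg_left _ (by positivity)
          exact pow_le_pow_of_le_one hv0 hv1 (by omega)
      _ = (N * v) ^ (a - i) := by rw [mul_pow]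
      _ ≤ ((N : ℝ) - k - a) ^ (a - i) := by
          apply pow_le_pow_left₀ (by positivity)
          have : (N : ℝ) * v = N - (k + b) := by rw [hv]; field_simp
          rw [this]; linarith
  have h10 : (N : ℝ) ^ a = N ^ i * N ^ (a - i) := by rw [← pow_add]; congr 1; omega
  have h11 : (N.choose a : ℝ) * (((a : ℝ) - s) / N) ^ i * v ^ b * (N : ℝ) ^ a ≤
      ((N - k).choose (a - i) : ℝ) * (N : ℝ) ^ a := by
    refine le_trans ?_ h6
    have h12 : (N.choose a : ℝ) * (((a : ℝ) - s) / N) ^ i * v ^ b * (N : ℝ) ^ a =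
        (N.choose a : ℝ) * ((a : ℝ) - s) ^ i * ((N : ℝ) ^ (a - i) * v ^ b) := by
      rw [h10, div_pow]; field_simp
    rw [h12]
    apply mul_le_mul _ h9 (by positivity) (by positivity)
    exact mul_le_mul_of_nonneg_left h8 (by positivity)
  exact le_of_mul_le_mul_right h11 (by positivity)

theorem one_sub_pow_ge {U : ℝ} (h0 : 0 ≤ U) (h1 : U ≤ 1) (b : ℕ) :
    Real.exp (-(b * U)) * (1 - b * U ^ 2) ≤ (1 - U) ^ b := by
  have h2 : Real.exp (-U) * (1 - U ^ 2) ≤ 1 - U := by
    rw [Real.exp_neg, inv_mul_le_iff₀ (Real.exp_pos _)]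
    have h3 := Real.add_one_le_exp U
    nlinarith
  have h3 : 0 ≤ 1 - U ^ 2 := by nlinarith
  calc Real.exp (-(b * U)) * (1 - b * U ^ 2) ≤ Real.exp (-(b * U)) * (1 - U ^ 2) ^ b := by
        apply mul_le_mul_of_nonneg_left _ (Real.exp_pos _).le
        have h4 := one_add_mul_le_pow (a := -(U ^ 2)) (by nlinarith) b
        rw [sub_eq_add_neg, sub_eq_add_neg]
        linarith
    _ = (Real.exp (-U) * (1 - U ^ 2)) ^ b := by
        rw [mul_pow, ← Real.exp_nat_mul]; congr 2; ring
    _ ≤ (1 - U) ^ b := pow_le_pow_left₀ (by positivity) h2 _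

/-- `s! ≤ e s (s / e) ^ s`. -/
theorem factorial_le (s : ℕ) (hs : 1 ≤ s) :
    (s.factorial : ℝ) ≤ Real.exp 1 * s * ((s : ℝ) * Real.exp (-1)) ^ s := by
  induction s, hs using Nat.le_induction with
  | base =>
    simp only [Nat.factorial_one, Nat.cast_one, pow_one, one_mul, mul_one]
    rw [← Real.exp_add]; simp
  | succ s hs ih =>
    have hs0 : (1 : ℝ) ≤ s := by exact_mod_cast hs
    rw [Nat.factorial_succ]
    push_cast
    have h1 : Real.exp 1 ≤ (((s : ℝ) + 1) / s) ^ (s + 1) := by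
      have h2 : Real.exp (1 / ((s : ℝ) + 1)) ≤ ((s : ℝ) + 1) / s := by
        have h3 := Real.add_one_le_exp (-(1 / ((s : ℝ) + 1)))
        rw [Real.exp_neg] at h3
        have h4 : -(1 / ((s : ℝ) + 1)) + 1 = s / (s + 1) := by field_simp; ring
        rw [h4] at h3
        have h5 := inv_anti₀ (by positivity) h3
        rw [inv_inv, inv_div] at h5
        exact h5
      calc Real.exp 1 = Real.exp (1 / ((s : ℝ) + 1)) ^ (s + 1) := by
            rw [← Real.exp_nat_mul]; congr 1; push_cast; field_simp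
        _ ≤ (((s : ℝ) + 1) / s) ^ (s + 1) := pow_le_pow_left₀ (Real.exp_pos _).le h2 _
    calc ((s : ℝ) + 1) * (s.factorial : ℝ)
        ≤ ((s : ℝ) + 1) * (Real.exp 1 * s * ((s : ℝ) * Real.exp (-1)) ^ s) :=
          mul_le_mul_of_nonneg_left ih (by positivity)
      _ = Real.exp 1 * (((s : ℝ) + 1) * s ^ (s + 1) * Real.exp (-1) ^ s * 1) := by
          rw [mul_pow]; ring
      _ = Real.exp 1 * (((s : ℝ) + 1) * s ^ (s + 1) * Real.exp (-1) ^ s *
            (Real.exp 1 * Real.exp (-1))) := by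
          rw [← Real.exp_add]; simp
      _ ≤ Real.exp 1 * (((s : ℝ) + 1) * s ^ (s + 1) * Real.exp (-1) ^ s *
            ((((s : ℝ) + 1) / s) ^ (s + 1) * Real.exp (-1))) := by
          apply mul_le_mul_of_nonneg_left _ (Real.exp_pos _).le
          apply mul_le_mul_of_nonneg_left _ (by positivity)
          exact mul_le_mul_of_nonneg_right h1 (Real.exp_pos _).le
      _ = Real.exp 1 * ((s : ℝ) + 1) * (((s : ℝ) + 1) * Real.exp (-1)) ^ (s + 1) := by
          rw [div_pow, mul_pow]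
          field_simp
          ring

/-- Case one: the set is small. -/
theorem case_one {s k₁ k₂ : ℕ} (hs : 2 ≤ s)
    (hk : (k₁ : ℝ) + k₂ < 6 * (4 * s ^ 2 + 1) * s * Real.exp (-1)) :
    Real.exp (-(s * Real.exp (-1))) / (25 * s) *
      (((6 * (4 * s ^ 2 + 1) ^ 2).choose (4 * s ^ 2) : ℝ) *
        ((6 * (4 * s ^ 2 + 1) ^ 2).choose (4 * s ^ 2 + 1) : ℝ)) ≤
      ((6 * (4 * s ^ 2 + 1) ^ 2 - k₁).choose (4 * s ^ 2) : ℝ) *
        ((6 * (4 * s ^ 2 + 1) ^ 2 - k₂).choose (4 * s ^ 2 + 1) : ℝ) := by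
  have hs0 : (2 : ℝ) ≤ s := by exact_mod_cast hs
  set a := 4 * s ^ 2 with ha
  set b := 4 * s ^ 2 + 1 with hb
  have hba : b = a + 1 := rfl
  set N := 6 * b ^ 2 with hN
  have hbr : (b : ℝ) = 4 * s ^ 2 + 1 := by rw [hb]; push_cast; ring
  have hNr : (N : ℝ) = 6 * b ^ 2 := by rw [hN]; push_cast; ring
  have he0 : 0 < Real.exp (-1) := Real.exp_pos _
  have he1 : Real.exp (-1) ≤ 1 / 2 := by
    rw [Real.exp_neg, one_div]
    apply inv_anti₀ (by norm_num)
    have := Real.exp_one_gt_d9; linarith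
  have hb4 : 4 * (s : ℝ) ^ 2 ≤ b := by rw [hbr]; linarith
  have hb1 : (17 : ℝ) ≤ b := by rw [hbr]; nlinarith
  rw [← hbr] at hk
  have hNb : (N : ℝ) - b = b * (6 * b - 1) := by rw [hNr]; ring
  have hNb0 : 0 < (N : ℝ) - b := by rw [hNb]; nlinarith
  have hbN : b < N := by
    have : (b : ℝ) < N := by linarith
    exact_mod_cast this
  have hksum : (k₁ : ℝ) + k₂ < N - b := by
    refine hk.trans_le ?_
    rw [hNb]
    have h1 : 6 * (b : ℝ) * s * Real.exp (-1) ≤ 6 * b * s * (1 / 2) :=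
      mul_le_mul_of_nonneg_left he1 (by positivity)
    nlinarith
  have hk1 : a + k₁ ≤ N := by
    have h1 : (k₁ : ℝ) + b ≤ N := by
      have : (0 : ℝ) ≤ k₂ := by positivity
      linarith
    have h2 : k₁ + b ≤ N := by exact_mod_cast h1
    omega
  have hk2 : b + k₂ ≤ N := by
    have h1 : (k₂ : ℝ) + b ≤ N := by
      have : (0 : ℝ) ≤ k₁ := by positivity
      linarith
    have h2 : k₂ + b ≤ N := by exact_mod_cast h1
    omega
  have c1 := choose_ge hk1 (by omega)
  have c2 := choose_ge hk2 hbN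
  set u₁ := (k₁ : ℝ) / (N - b) with hu1
  set u₂ := (k₂ : ℝ) / (N - b) with hu2
  have hu10 : 0 ≤ u₁ := by positivity
  have hu20 : 0 ≤ u₂ := by positivity
  have hab : (a : ℝ) ≤ b := by exact_mod_cast (by omega : a ≤ b)
  have hNa0 : 0 < (N : ℝ) - a := by linarith
  set U := 6 * s * Real.exp (-1) / (6 * b - 1) with hU
  have h6b : (0 : ℝ) < 6 * b - 1 := by linarith
  have hU0 : 0 ≤ U := by positivity
  have huU : u₁ + u₂ ≤ U := by
    rw [hu1, hu2, ← add_div, div_le_iff₀ hNb0, hNb, hU]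
    have : 6 * ↑s * Real.exp (-1) / (6 * ↑b - 1) * (↑b * (6 * ↑b - 1)) =
        6 * (b : ℝ) * s * Real.exp (-1) := by field_simp
    rw [this]; exact hk.le
  have hUb : U ≤ s / b := by
    rw [hU, div_le_div_iff₀ h6b (by positivity)]
    have h1 : 6 * (s : ℝ) * Real.exp (-1) * b ≤ 6 * s * (1 / 2) * b := by
      apply mul_le_mul_of_nonneg_right _ (by positivity)
      exact mul_le_mul_of_nonneg_left he1 (by positivity)
    nlinarith
  have hsb : (s : ℝ) / b ≤ 1 / 8 := by
    rw [div_le_div_iff₀ (by positivity) (by norm_num)]; nlinarith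
  have hU1 : U ≤ 1 := by linarith
  have hbU : b * U ≤ s * Real.exp (-1) + 1 := by
    rw [hU, mul_div_assoc', div_le_iff₀ h6b]
    have h1 : (s : ℝ) * Real.exp (-1) ≤ s * (1 / 2) := mul_le_mul_of_nonneg_left he1 (by positivity)
    nlinarith
  have hbU2 : b * U ^ 2 ≤ 1 / 4 := by
    calc b * U ^ 2 ≤ b * (s / b) ^ 2 := by
          apply mul_le_mul_of_nonneg_left _ (by positivity)
          exact pow_le_pow_left₀ hU0 hUb 2
      _ = (s : ℝ) ^ 2 / b := by field_simp
      _ ≤ 1 / 4 := by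
          rw [div_le_div_iff₀ (by positivity) (by norm_num)]; linarith
  have hmain : Real.exp (-(s * Real.exp (-1))) / (25 * s) ≤ (1 - u₁) ^ b * (1 - u₂) ^ b := by
    calc Real.exp (-(s * Real.exp (-1))) / (25 * s)
        ≤ Real.exp (-(s * Real.exp (-1))) * (Real.exp (-1) * (3 / 4)) := by
          rw [div_eq_mul_inv]
          apply mul_le_mul_of_nonneg_left _ (Real.exp_pos _).le
          have h1 : (1 : ℝ) / 3 ≤ Real.exp (-1) := by
            rw [Real.exp_neg, one_div]
            apply inv_anti₀ (Real.exp_pos _)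
            have := Real.exp_one_lt_d9; linarith
          have h2 : (25 * (s : ℝ))⁻¹ ≤ (50 : ℝ)⁻¹ := inv_anti₀ (by norm_num) (by linarith)
          have h3 : (50 : ℝ)⁻¹ ≤ 1 / 4 := by norm_num
          linarith
      _ = Real.exp (-(s * Real.exp (-1) + 1)) * (3 / 4) := by
          rw [neg_add, Real.exp_add]; ring
      _ ≤ Real.exp (-(b * U)) * (1 - b * U ^ 2) := by
          apply mul_le_mul _ (by linarith) (by norm_num) (Real.exp_pos _).le
          apply Real.exp_le_exp.2; linarith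
      _ ≤ (1 - U) ^ b := one_sub_pow_ge hU0 hU1 b
      _ ≤ ((1 - u₁) * (1 - u₂)) ^ b := by
          apply pow_le_pow_left₀ (by linarith)
          have := mul_nonneg hu10 hu20
          nlinarith
      _ = (1 - u₁) ^ b * (1 - u₂) ^ b := mul_pow _ _ _
  have hu1le : u₁ ≤ 1 := by linarith
  have hu2le : u₂ ≤ 1 := by linarith
  have d1 : (1 - u₁) ^ b * (N.choose a : ℝ) ≤ ((N - k₁).choose a : ℝ) := by
    refine le_trans ?_ c1
    apply mul_le_mul_of_nonneg_right _ (by positivity)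
    calc (1 - u₁) ^ b ≤ (1 - u₁) ^ a :=
          pow_le_pow_of_le_one (by linarith) (by linarith) (by omega)
      _ ≤ (1 - (k₁ : ℝ) / (N - a)) ^ a := by
          apply pow_le_pow_left₀ (by linarith)
          have : (k₁ : ℝ) / (N - a) ≤ k₁ / (N - b) :=
            div_le_div_of_nonneg_left (by positivity) hNb0 (by linarith)
          linarith
  calc Real.exp (-(s * Real.exp (-1))) / (25 * s) * ((N.choose a : ℝ) * (N.choose b : ℝ))
      ≤ ((1 - u₁) ^ b * (1 - u₂) ^ b) * ((N.choose a : ℝ) * (N.choose b : ℝ)) :=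
        mul_le_mul_of_nonneg_right hmain (by positivity)
    _ = ((1 - u₁) ^ b * (N.choose a : ℝ)) * ((1 - u₂) ^ b * (N.choose b : ℝ)) := by ring
    _ ≤ ((N - k₁).choose a : ℝ) * ((N - k₂).choose b : ℝ) := by
        apply mul_le_mul d1 c2 _ (by positivity)
        have : 0 ≤ (1 - u₂) ^ b := pow_nonneg (by linarith) _
        positivity

/-- Case two: the set has the critical size. -/
theorem case_two {s k₁ k₂ : ℕ} (hs : 2 ≤ s)
    (hk : 6 * (4 * s ^ 2 + 1) * s * Real.exp (-1) ≤ (k₁ : ℝ) + k₂)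
    (hk' : (k₁ : ℝ) + k₂ < 6 * (4 * s ^ 2 + 1) * s * Real.exp (-1) + 1) :
    Real.exp (-(s * Real.exp (-1))) / (25 * s) *
      (((6 * (4 * s ^ 2 + 1) ^ 2).choose (4 * s ^ 2) : ℝ) *
        ((6 * (4 * s ^ 2 + 1) ^ 2).choose (4 * s ^ 2 + 1) : ℝ)) ≤
      ∑ ij ∈ antidiagonal s,
        ((k₁.choose ij.1 : ℝ) *
          ((6 * (4 * s ^ 2 + 1) ^ 2 - k₁).choose (4 * s ^ 2 - ij.1) : ℝ)) *
        ((k₂.choose ij.2 : ℝ) *
          ((6 * (4 * s ^ 2 + 1) ^ 2 - k₂).choose (4 * s ^ 2 + 1 - ij.2) : ℝ)) := by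
  have hs0 : (2 : ℝ) ≤ s := by exact_mod_cast hs
  set a := 4 * s ^ 2 with ha
  set b := 4 * s ^ 2 + 1 with hb
  have hba : b = a + 1 := rfl
  set N := 6 * b ^ 2 with hN
  have har : (a : ℝ) = 4 * s ^ 2 := by rw [ha]; push_cast; ring
  have hbr : (b : ℝ) = 4 * s ^ 2 + 1 := by rw [hb]; push_cast; ring
  have hNr : (N : ℝ) = 6 * b ^ 2 := by rw [hN]; push_cast; ring
  have he0 : 0 < Real.exp (-1) := Real.exp_pos _
  have he1 : Real.exp (-1) ≤ 1 / 2 := by
    rw [Real.exp_neg, one_div]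
    apply inv_anti₀ (by norm_num)
    have := Real.exp_one_gt_d9; linarith
  have he2 : (1 : ℝ) / 3 ≤ Real.exp (-1) := by
    rw [Real.exp_neg, one_div]
    apply inv_anti₀ (Real.exp_pos _)
    have := Real.exp_one_lt_d9; linarith
  have hb4 : 4 * (s : ℝ) ^ 2 ≤ b := by rw [hbr]; linarith
  have hb1 : (17 : ℝ) ≤ b := by rw [hbr]; nlinarith
  rw [← hbr] at hk hk'
  have hN0 : (0 : ℝ) < N := by rw [hNr]; positivity
  have hsa : s ≤ a := by rw [ha]; nlinarith
  have hsar : (s : ℝ) ≤ a := by exact_mod_cast hsa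
  have hksum : (k₁ : ℝ) + k₂ + 2 * b ≤ N := by
    have h1 : 6 * (b : ℝ) * s * Real.exp (-1) ≤ 6 * b * s * (1 / 2) :=
      mul_le_mul_of_nonneg_left he1 (by positivity)
    rw [hNr]; nlinarith
  have hk1 : k₁ + b ≤ N := by
    have h1 : (k₁ : ℝ) + b ≤ N := by
      have h2 : (0 : ℝ) ≤ k₂ := by positivity
      have h3 : (0 : ℝ) ≤ b := by positivity
      linarith
    exact_mod_cast h1
  have hk2 : k₂ + b ≤ N := by
    have h1 : (k₂ : ℝ) + b ≤ N := by
      have h2 : (0 : ℝ) ≤ k₁ := by positivity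
      have h3 : (0 : ℝ) ≤ b := by positivity
      linarith
    exact_mod_cast h1
  have hNpos : 0 < N := by exact_mod_cast hN0
  set v₁ := 1 - ((k₁ : ℝ) + b) / N with hv1
  set v₂ := 1 - ((k₂ : ℝ) + b) / N with hv2
  have hv10 : 0 ≤ v₁ := by
    rw [hv1, sub_nonneg, div_le_one hN0]; exact_mod_cast hk1
  have hv20 : 0 ≤ v₂ := by
    rw [hv2, sub_nonneg, div_le_one hN0]; exact_mod_cast hk2
  set r := ((a : ℝ) - s) / N with hr
  have hr0 : 0 ≤ r := by
    rw [hr]; apply div_nonneg _ hN0.le; linarith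
  -- each term
  have hterm : ∀ ij ∈ antidiagonal s,
      ((k₁.choose ij.1 : ℝ) * (k₂.choose ij.2 : ℝ)) *
        (((N.choose a : ℝ) * (N.choose b : ℝ)) * r ^ s * (v₁ * v₂) ^ b) ≤
      ((k₁.choose ij.1 : ℝ) * ((N - k₁).choose (a - ij.1) : ℝ)) *
        ((k₂.choose ij.2 : ℝ) * ((N - k₂).choose (b - ij.2) : ℝ)) := by
    rintro ⟨i, j⟩ hij
    have hij' : i + j = s := Finset.HasAntidiagonal.mem_antidiagonal.1 hij
    simp only
    have e1 := choose_ge2 (N := N) (a := a) (b := b) (k := k₁) (i := i) (s := s) (by omega)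
      hsa (by omega) hk1 hNpos
    have e2 := choose_ge2 (N := N) (a := b) (b := b) (k := k₂) (i := j) (s := s) le_rfl
      (by omega) (by omega) hk2 hNpos
    have e3 : (N.choose b : ℝ) * r ^ j * v₂ ^ b ≤ ((N - k₂).choose (b - j) : ℝ) := by
      refine le_trans ?_ e2
      apply mul_le_mul_of_nonneg_right _ (by positivity)
      apply mul_le_mul_of_nonneg_left _ (by positivity)
      apply pow_le_pow_left₀ hr0
      rw [hr]
      apply div_le_div_of_nonneg_right _ hN0.le
      have : (a : ℝ) ≤ b := by exact_mod_cast (by omega : a ≤ b)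
      linarith
    have e4 : r ^ s = r ^ i * r ^ j := by rw [← pow_add, hij']
    calc ((k₁.choose i : ℝ) * (k₂.choose j : ℝ)) *
        (((N.choose a : ℝ) * (N.choose b : ℝ)) * r ^ s * (v₁ * v₂) ^ b)
        = ((k₁.choose i : ℝ) * ((N.choose a : ℝ) * r ^ i * v₁ ^ b)) *
          ((k₂.choose j : ℝ) * ((N.choose b : ℝ) * r ^ j * v₂ ^ b)) := by
          rw [e4, mul_pow]; ring
      _ ≤ _ := by
          apply mul_le_mul
          · exact mul_le_mul_of_nonneg_left e1 (by positivity)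
          · exact mul_le_mul_of_nonneg_left e3 (by positivity)
          · positivity
          · positivity
  refine le_trans ?_ (Finset.sum_le_sum hterm)
  rw [← Finset.sum_mul]
  have hvan : ∑ ij ∈ antidiagonal s, (k₁.choose ij.1 : ℝ) * (k₂.choose ij.2 : ℝ) =
      ((k₁ + k₂).choose s : ℝ) := by
    rw [Nat.add_choose_eq]; push_cast; rfl
  rw [hvan]
  -- numbers
  have hkk : (s : ℝ) ≤ ((k₁ + k₂ : ℕ) : ℝ) := by
    push_cast
    have h1 : 6 * (b : ℝ) * s * (1 / 3) ≤ 6 * b * s * Real.exp (-1) :=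
      mul_le_mul_of_nonneg_left he2 (by positivity)
    nlinarith
  have hkk' : s ≤ k₁ + k₂ := by exact_mod_cast hkk
  have h8 : ((((k₁ + k₂ : ℕ) : ℝ)) - s) ^ s ≤ (s.factorial : ℝ) * ((k₁ + k₂).choose s : ℝ) := by
    have h9 := Nat.pow_sub_le_descFactorial (k₁ + k₂) s
    rw [Nat.descFactorial_eq_factorial_mul_choose] at h9
    have h10 : (((k₁ + k₂ + 1 - s) ^ s : ℕ) : ℝ) ≤ (s.factorial * (k₁ + k₂).choose s : ℕ) := by
      exact_mod_cast h9
    rw [Nat.cast_pow, Nat.cast_mul, Nat.cast_sub (by omega), Nat.cast_add (k₁ + k₂) 1] at h10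
    refine le_trans ?_ h10
    apply pow_le_pow_left₀ <;> push_cast at hkk ⊢ <;> linarith
  set K := (((k₁ + k₂ : ℕ) : ℝ)) with hKdef
  have hK1 : 6 * (b : ℝ) * s * Real.exp (-1) ≤ K := by rw [hKdef]; push_cast; exact hk
  have h20 : (s * Real.exp (-1)) ^ s * (1 / 2) ≤ ((K - s) * r) ^ s := by
    have h21 : s * Real.exp (-1) * (1 - (s + 2) / b) ≤ (K - s) * r := by
      have h22 : s * Real.exp (-1) * (1 - (s + 2) / b) ≤
          (6 * b * s * Real.exp (-1) - s) * r := by
        rw [hr, hNr, har]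
        have hb' : (4 : ℝ) * s ^ 2 = b - 1 := by rw [hbr]; ring
        rw [hb']
        rw [mul_div_assoc', le_div_iff₀ (by positivity)]
        have h23 : s * Real.exp (-1) * (1 - (s + 2) / b) * (6 * (b : ℝ) ^ 2) =
            s * Real.exp (-1) * (6 * b ^ 2 - 6 * b * (s + 2)) := by field_simp
        rw [h23]
        have h24 : (0 : ℝ) ≤ (b : ℝ) - 1 - s := by
          rw [← hb']; nlinarith
        have h25 : (s : ℝ) * ((b : ℝ) - 1 - s) ≤ s * (Real.exp (-1) * (6 * b)) := by
          apply mul_le_mul_of_nonneg_left _ (by positivity)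
          have : (1 : ℝ) / 3 * (6 * b) ≤ Real.exp (-1) * (6 * b) :=
            mul_le_mul_of_nonneg_right he2 (by positivity)
          nlinarith
        have h26 : (6 * (b : ℝ) * s * Real.exp (-1) - s) * (b - 1 - s) =
            s * Real.exp (-1) * (6 * b * (b - 1 - s)) - s * (b - 1 - s) := by ring
        rw [h26]
        have h27 : s * Real.exp (-1) * (6 * (b : ℝ) ^ 2 - 6 * b * (s + 2)) =
            s * Real.exp (-1) * (6 * b * (b - 1 - s)) - s * (Real.exp (-1) * (6 * b)) := by ring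
        rw [h27]; linarith
      refine h22.trans ?_
      apply mul_le_mul_of_nonneg_right _ hr0
      linarith
    have h28 : (0 : ℝ) ≤ 1 - (s + 2) / b := by
      rw [sub_nonneg, div_le_one (by positivity)]; nlinarith
    calc (s * Real.exp (-1)) ^ s * (1 / 2)
        ≤ (s * Real.exp (-1)) ^ s * (1 - (s + 2) / b) ^ s := by
          apply mul_le_mul_of_nonneg_left _ (by positivity)
          have h15 := one_add_mul_le_pow (a := -(((s : ℝ) + 2) / b)) (by linarith) s
          have h16 : (s : ℝ) * ((s + 2) / b) ≤ 1 / 2 := by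
            rw [mul_div_assoc', div_le_div_iff₀ (by positivity) (by norm_num)]; nlinarith
          rw [sub_eq_add_neg]; linarith
      _ = (s * Real.exp (-1) * (1 - (s + 2) / b)) ^ s := by rw [← mul_pow]
      _ ≤ ((K - s) * r) ^ s := pow_le_pow_left₀ (by positivity) h21 _
  have hfac := factorial_le s (by omega)
  have hsf : (0 : ℝ) < (s.factorial : ℝ) := by exact_mod_cast s.factorial_pos
  have h30 : 1 / (2 * Real.exp 1 * s) ≤ ((k₁ + k₂).choose s : ℝ) * r ^ s := by
    have h31 : (s * Real.exp (-1)) ^ s * (1 / 2) ≤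
        (s.factorial : ℝ) * (((k₁ + k₂).choose s : ℝ) * r ^ s) := by
      calc (s * Real.exp (-1)) ^ s * (1 / 2) ≤ ((K - s) * r) ^ s := h20
        _ = (K - s) ^ s * r ^ s := mul_pow _ _ _
        _ ≤ ((s.factorial : ℝ) * ((k₁ + k₂).choose s : ℝ)) * r ^ s :=
            mul_le_mul_of_nonneg_right h8 (by positivity)
        _ = _ := by ring
    have h32 : (0 : ℝ) < (s * Real.exp (-1)) ^ s := by positivity
    have h33 : (s * Real.exp (-1)) ^ s * (1 / 2) ≤
        (Real.exp 1 * s * ((s : ℝ) * Real.exp (-1)) ^ s) *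
          (((k₁ + k₂).choose s : ℝ) * r ^ s) := by
      refine h31.trans ?_
      exact mul_le_mul_of_nonneg_right hfac (by positivity)
    rw [div_le_iff₀ (by positivity)]
    have h34 : (s * Real.exp (-1)) ^ s * (1 / 2) ≤ (s * Real.exp (-1)) ^ s *
        ((((k₁ + k₂).choose s : ℝ) * r ^ s) * (Real.exp 1 * s)) := by
      refine h33.trans (le_of_eq ?_); ring
    have h35 := le_of_mul_le_mul_left h34 h32
    linarith
  -- the exponential factor
  set W := (s * Real.exp (-1) + 1 / 2) / b with hW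
  have hW0 : 0 ≤ W := by positivity
  have hWs : W ≤ s / b := by
    rw [hW]
    apply div_le_div_of_nonneg_right _ (by positivity)
    have h1 : (s : ℝ) * Real.exp (-1) ≤ s * (1 / 2) := mul_le_mul_of_nonneg_left he1 (by positivity)
    linarith
  have hsb : (s : ℝ) / b ≤ 1 / 8 := by
    rw [div_le_div_iff₀ (by positivity) (by norm_num)]; nlinarith
  have hW1 : W ≤ 1 := by linarith
  have hbW : b * W = s * Real.exp (-1) + 1 / 2 := by rw [hW]; field_simp
  have hbW2 : b * W ^ 2 ≤ 1 / 4 := by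
    calc b * W ^ 2 ≤ b * (s / b) ^ 2 := by
          apply mul_le_mul_of_nonneg_left _ (by positivity)
          exact pow_le_pow_left₀ hW0 hWs 2
      _ = (s : ℝ) ^ 2 / b := by field_simp
      _ ≤ 1 / 4 := by
          rw [div_le_div_iff₀ (by positivity) (by norm_num)]; linarith
  have hvv : 1 - W ≤ v₁ * v₂ := by
    have h41 : 1 - (K + 2 * b) / N ≤ v₁ * v₂ := by
      have h42 : v₁ * v₂ = 1 - (((k₁ : ℝ) + b) / N + ((k₂ : ℝ) + b) / N) +
          (((k₁ : ℝ) + b) / N) * (((k₂ : ℝ) + b) / N) := by rw [hv1, hv2]; ring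
      have h43 : 0 ≤ (((k₁ : ℝ) + b) / N) * (((k₂ : ℝ) + b) / N) := by positivity
      have h44 : (K + 2 * b) / N = ((k₁ : ℝ) + b) / N + ((k₂ : ℝ) + b) / N := by
        rw [hKdef]; push_cast; ring
      rw [h42, h44]; linarith
    have h45 : (K + 2 * b) / N ≤ W := by
      rw [hW, hNr, div_le_div_iff₀ (by positivity) (by positivity)]
      have h46 : K ≤ 6 * (b : ℝ) * s * Real.exp (-1) + 1 := by
        rw [hKdef]; push_cast; exact hk'.le
      have h47 : (K + 2 * b) * b ≤ (6 * (b : ℝ) * s * Real.exp (-1) + 1 + 2 * b) * b := by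
        apply mul_le_mul_of_nonneg_right _ (by positivity); linarith
      refine h47.trans ?_
      nlinarith
    linarith
  have h50 : Real.exp (-(s * Real.exp (-1))) * (Real.exp (-1) * (3 / 4)) ≤ (v₁ * v₂) ^ b := by
    calc Real.exp (-(s * Real.exp (-1))) * (Real.exp (-1) * (3 / 4))
        = Real.exp (-(s * Real.exp (-1) + 1)) * (3 / 4) := by
          rw [neg_add, Real.exp_add]; ring
      _ ≤ Real.exp (-(b * W)) * (1 - b * W ^ 2) := by
          apply mul_le_mul _ (by linarith) (by norm_num) (Real.exp_pos _).le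
          apply Real.exp_le_exp.2; rw [hbW]; linarith
      _ ≤ (1 - W) ^ b := one_sub_pow_ge hW0 hW1 b
      _ ≤ (v₁ * v₂) ^ b := pow_le_pow_left₀ (by linarith) hvv _
  have h60 : Real.exp (-(s * Real.exp (-1))) / (25 * s) ≤
      (((k₁ + k₂).choose s : ℝ) * r ^ s) * (v₁ * v₂) ^ b := by
    calc Real.exp (-(s * Real.exp (-1))) / (25 * s)
        ≤ (1 / (2 * Real.exp 1 * s)) *
          (Real.exp (-(s * Real.exp (-1))) * (Real.exp (-1) * (3 / 4))) := by
          have h61 : Real.exp (-1) = 1 / Real.exp 1 := by rw [Real.exp_neg, one_div]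
          have h62 : (1 / (2 * Real.exp 1 * s)) *
              (Real.exp (-(s * Real.exp (-1))) * (Real.exp (-1) * (3 / 4))) =
              Real.exp (-(s * Real.exp (-1))) / s * (3 / (8 * (Real.exp 1) ^ 2)) := by
            nth_rewrite 2 [h61]
            field_simp
            norm_num
          rw [h62]
          have h63 : Real.exp (-(s * Real.exp (-1))) / (25 * s) =
              Real.exp (-(s * Real.exp (-1))) / s * (1 / 25) := by field_simp
          rw [h63]
          apply mul_le_mul_of_nonneg_left _ (by positivity)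
          rw [div_le_div_iff₀ (by norm_num) (by positivity)]
          have h64 := Real.exp_one_lt_d9
          have h65 := Real.exp_pos 1
          nlinarith
      _ ≤ (((k₁ + k₂).choose s : ℝ) * r ^ s) * (v₁ * v₂) ^ b := by
          apply mul_le_mul h30 h50 (by positivity) (by positivity)
  calc Real.exp (-(s * Real.exp (-1))) / (25 * s) * ((N.choose a : ℝ) * (N.choose b : ℝ))
      ≤ ((((k₁ + k₂).choose s : ℝ) * r ^ s) * (v₁ * v₂) ^ b) *
        ((N.choose a : ℝ) * (N.choose b : ℝ)) := mul_le_mul_of_nonneg_right h60 (by positivity)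
    _ = _ := by ring

end Pool.Agent.Y78.PB
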